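import Mathlib
import Pool.Agent.R715.HeckeWord

/-!
Reduced words in `S_n × S_n`: letters `(i, c)`, `1 ≤ i < n`, with two colours `c`.
-/

set_option autoImplicit false

namespace Pool.Agent.K1H77.DW

open Equiv Pool.Agent.R715.HeckeA

/-- letters: an index and a colour (`true` = barred) -/
abbrev Lt := ℕ × Bool

/-- The letters commute and have the same colour with indices at distance at least 2, or different
colours and different indices. -/
def comm (x y : Lt) : Prop := (x.2 = y.2 ∧ (x.1 + 1 < y.1 ∨ y.1 + 1 < x.1)) ∨ (x.2 ≠ y.2 ∧ x.1 ≠ y.1)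

/-- the letters `i` and `i` barred, in some order -/
def mix (x y : Lt) : Prop := x.2 ≠ y.2 ∧ x.1 = y.1

/-- letters of the same colour with adjacent indices -/
def cox (x y : Lt) : Prop := x.2 = y.2 ∧ (x.1 + 1 = y.1 ∨ y.1 + 1 = x.1)

lemma comm.symm {x y : Lt} (h : comm x y) : comm y x := by
  rcases h with ⟨h1, h2⟩ | ⟨h1, h2⟩
  · exact Or.inl ⟨h1.symm, h2.symm⟩
  · exact Or.inr ⟨h1.symm, h2.symm⟩

lemma mix.symm {x y : Lt} (h : mix x y) : mix y x := ⟨h.1.symm, h.2.symm⟩

lemma cox.symm {x y : Lt} (h : cox x y) : cox y x := ⟨h.1.symm, h.2.symm⟩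

lemma comm.ne {x y : Lt} (h : comm x y) : x ≠ y := by
  rintro rfl
  rcases h with ⟨_, h2⟩ | ⟨h1, _⟩
  · omega
  · exact h1 rfl

lemma mix.ne {x y : Lt} (h : mix x y) : x ≠ y := fun e => h.1 (by rw [e])

lemma cox.ne {x y : Lt} (h : cox x y) : x ≠ y := by
  rintro rfl
  have := h.2
  omega

lemma tri {x y : Lt} (h : x ≠ y) : comm x y ∨ mix x y ∨ cox x y := by
  by_cases h2 : x.2 = y.2
  · have h1 : x.1 ≠ y.1 := fun h1 => h (Prod.ext h1 h2)
    by_cases h3 : x.1 + 1 = y.1 ∨ y.1 + 1 = x.1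
    · exact Or.inr (Or.inr ⟨h2, h3⟩)
    · exact Or.inl (Or.inl ⟨h2, by omega⟩)
  · by_cases h1 : x.1 = y.1
    · exact Or.inr (Or.inl ⟨h2, h1⟩)
    · exact Or.inl (Or.inr ⟨h2, h1⟩)

lemma comm.not_cox {x y : Lt} (h : comm x y) : ¬ cox x y := by
  rintro ⟨h1, h2⟩
  rcases h with ⟨_, h3⟩ | ⟨h3, _⟩
  · omega
  · exact h3 h1

lemma mix.not_cox {x y : Lt} (h : mix x y) : ¬ cox x y := fun h1 => h.1 h1.1

lemma comm.not_mix {x y : Lt} (h : comm x y) : ¬ mix x y := by
  rintro ⟨h1, h2⟩
  rcases h with ⟨h3, _⟩ | ⟨_, h3⟩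
  · exact h1 h3
  · exact h3 h2

variable {n : ℕ}

/-- pairs of permutations -/
abbrev PP (n : ℕ) := Bool → Perm (Fin n)

/-- multiplication by a letter -/
def act (x : Lt) (v : PP n) : PP n := Function.update v x.2 (adj n x.1 * v x.2)

lemma act_same (x : Lt) (v : PP n) : act x v x.2 = adj n x.1 * v x.2 := by
  unfold act; simp

lemma act_ne {x : Lt} {c : Bool} (h : c ≠ x.2) (v : PP n) : act x v c = v c := by
  unfold act; rw [Function.update_of_ne h]

lemma act_act (x : Lt) (v : PP n) : act x (act x v) = v := by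
  unfold act
  simp only [Function.update_self, Function.update_idem, adj_mul_adj_mul, Function.update_eq_self]

/-- position of the value `k` -/
def pos (σ : Perm (Fin n)) (k : ℕ) : ℕ := if h : k < n then (σ⁻¹ ⟨k, h⟩).val else k

lemma pos_adj {i : ℕ} (hi : 1 ≤ i ∧ i < n) (σ : Perm (Fin n)) (k : ℕ) :
    pos (adj n i * σ) k = if k = i - 1 then pos σ i else if k = i then pos σ (i - 1)
      else pos σ k := by
  by_cases hk : k < n
  · have e : (adj n i * σ)⁻¹ ⟨k, hk⟩ = σ⁻¹ (adj n i ⟨k, hk⟩) := by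
      rw [mul_inv_rev, adj_inv, Perm.mul_apply]
    unfold pos
    rw [dif_pos hk, e]
    have h1 := adj_apply hi ⟨k, hk⟩
    simp only at h1
    by_cases h2 : k = i - 1
    · rw [if_pos h2] at h1 ⊢
      rw [dif_pos hi.2]
      congr 2
      exact Fin.ext h1
    · rw [if_neg h2] at h1 ⊢
      by_cases h3 : k = i
      · rw [if_pos h3] at h1 ⊢
        rw [dif_pos (by omega)]
        congr 2
        exact Fin.ext h1
      · rw [if_neg h3] at h1 ⊢
        rw [dif_pos hk]
        congr 2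
        exact Fin.ext h1
  · have e1 : k ≠ i - 1 := by omega
    have e2 : k ≠ i := by omega
    rw [if_neg e1, if_neg e2]
    unfold pos
    rw [dif_neg hk, dif_neg hk]

lemma pos_lt_iff {i : ℕ} (hi : 1 ≤ i ∧ i < n) (σ : Perm (Fin n)) :
    pos σ i < pos σ (i - 1) ↔ σ⁻¹ (up hi) < σ⁻¹ (lo hi) := by
  unfold pos
  rw [dif_pos hi.2, dif_pos (by omega), Fin.lt_def]
  rfl

/-- `x` is a left descent of `v` -/
def Desc (x : Lt) (v : PP n) : Prop := (1 ≤ x.1 ∧ x.1 < n) ∧ pos (v x.2) x.1 < pos (v x.2) (x.1 - 1)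

/-- length -/
def L (v : PP n) : ℕ := len (v false) + len (v true)

lemma Desc.L {x : Lt} {v : PP n} (h : Desc x v) : L v = L (act x v) + 1 := by
  have h1 := len_adj_mul_of_gt h.1 ((pos_lt_iff h.1 _).1 h.2)
  unfold DW.L
  obtain ⟨i, c⟩ := x
  cases c
  · rw [act_ne (x := (i, false)) (c := true) (by simp)]
    have := act_same (i, false) v
    simp only at this h1
    rw [this]
    omega
  · rw [act_ne (x := (i, true)) (c := false) (by simp)]
    have := act_same (i, true) v
    simp only at this h1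
    rw [this]
    omega

lemma exists_desc {v : PP n} (h : L v ≠ 0) : ∃ x, Desc x v := by
  by_contra hc
  push Not at hc
  apply h
  have key : ∀ c, len (v c) = 0 := by
    intro c
    by_contra h1
    have h2 : v c ≠ 1 := by
      intro h3
      rw [h3, len_one] at h1
      exact h1 rfl
    obtain ⟨i, hi, h3⟩ := exists_descent h2
    exact hc (i, c) ⟨hi, (pos_lt_iff hi _).2 h3⟩
  unfold DW.L
  rw [key, key]

/-- `w` is a reduced word of `v` -/
def RedR : List Lt → PP n → Prop
  | [], v => L v = 0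
  | x :: w, v => Desc x v ∧ RedR w (act x v)

lemma RedR.length {w : List Lt} : ∀ {v : PP n}, RedR w v → w.length = L v := by
  induction w with
  | nil => intro v h; exact h.symm
  | cons x w ih =>
    intro v h
    rw [List.length_cons, ih h.2, h.1.L]

lemma exists_redR (k : ℕ) : ∀ v : PP n, L v = k → ∃ w, RedR w v := by
  induction k with
  | zero => intro v h; exact ⟨[], h⟩
  | succ k ih =>
    intro v h
    obtain ⟨x, hx⟩ := exists_desc (v := v) (by omega)
    have := hx.L
    obtain ⟨w, hw⟩ := ih (act x v) (by omega)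
    exact ⟨x :: w, hx, hw⟩

/-- successive multiplication by the letters of a word -/
def strip : List Lt → PP n → PP n
  | [], v => v
  | x :: w, v => strip w (act x v)

/-- all letters are descents, successively -/
def Chain : List Lt → PP n → Prop
  | [], _ => True
  | x :: w, v => Desc x v ∧ Chain w (act x v)

lemma redR_append (u w : List Lt) : ∀ v : PP n, RedR (u ++ w) v ↔ Chain u v ∧ RedR w (strip u v) := by
  induction u with
  | nil => intro v; simp [Chain, strip]
  | cons x u ih =>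
    intro v
    rw [List.cons_append]
    simp only [RedR, Chain, strip]
    rw [ih, and_assoc]

/-! ### relations -/

lemma act_comm {x y : Lt} (h : ¬ cox x y) (hx : 1 ≤ x.1 ∧ x.1 < n) (hy : 1 ≤ y.1 ∧ y.1 < n)
    (v : PP n) : act x (act y v) = act y (act x v) := by
  by_cases hc : x.2 = y.2
  · obtain ⟨i, c⟩ := x
    obtain ⟨j, d⟩ := y
    simp only at hc hx hy
    subst hc
    unfold act
    simp only [Function.update_self, Function.update_idem]
    congr 1
    rw [← mul_assoc, ← mul_assoc]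
    congr 1
    by_cases hij : i = j
    · rw [hij]
    · unfold cox at h
      simp only [true_and] at h
      rcases lt_or_gt_of_ne hij with h1 | h1
      · exact adj_comm hx.1 (by omega) hy.2
      · exact (adj_comm hy.1 (by omega) hx.2).symm
  · unfold act
    rw [Function.update_of_ne hc, Function.update_of_ne (Ne.symm hc),
      Function.update_comm (Ne.symm hc)]

lemma act_braid {x y : Lt} (h : cox x y) (hx : 1 ≤ x.1 ∧ x.1 < n) (hy : 1 ≤ y.1 ∧ y.1 < n)
    (v : PP n) : act x (act y (act x v)) = act y (act x (act y v)) := by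
  obtain ⟨i, c⟩ := x
  obtain ⟨j, d⟩ := y
  obtain ⟨hc, h⟩ := h
  simp only at hc hx hy h
  subst hc
  unfold act
  simp only [Function.update_self, Function.update_idem]
  congr 1
  rw [← mul_assoc, ← mul_assoc, ← mul_assoc, ← mul_assoc]
  congr 1
  rcases h with rfl | rfl
  · exact adj_braid hx.1 hy.2
  · exact (adj_braid hy.1 hx.2).symm

/-- position after multiplication by a letter -/
lemma pos_act {x : Lt} (hx : 1 ≤ x.1 ∧ x.1 < n) (v : PP n) (c : Bool) (k : ℕ) :
    pos (act x v c) k = if c = x.2 then (if k = x.1 - 1 then pos (v c) x.1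
      else if k = x.1 then pos (v c) (x.1 - 1) else pos (v c) k) else pos (v c) k := by
  by_cases hc : c = x.2
  · rw [if_pos hc, hc, act_same, pos_adj hx]
  · rw [if_neg hc, act_ne hc]

lemma desc_act_iff {x y : Lt} (h : ¬ cox x y) (hne : x ≠ y) (hx : 1 ≤ x.1 ∧ x.1 < n) (v : PP n) :
    Desc y (act x v) ↔ Desc y v := by
  unfold Desc
  apply and_congr_right
  intro hy
  rw [pos_act hx, pos_act hx]
  by_cases hc : y.2 = x.2
  · have h1 : x.1 ≠ y.1 := fun h1 => hne (Prod.ext h1 hc.symm)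
    unfold cox at h
    simp only [hc, true_and, if_true] at h ⊢
    have e1 : y.1 ≠ x.1 - 1 := by omega
    have e2 : y.1 ≠ x.1 := by omega
    have e3 : y.1 - 1 ≠ x.1 - 1 := by omega
    have e4 : y.1 - 1 ≠ x.1 := by omega
    simp [e1, e2, e3, e4]
  · simp [hc]

/-- the words `x y ⋯` of the two braid moves -/
lemma chain_swap {x y : Lt} (h : ¬ cox x y) (hne : x ≠ y) {v : PP n} (hc : Chain [x, y] v) :
    Chain [y, x] v ∧ strip [y, x] v = strip [x, y] v := by
  obtain ⟨h1, h2, -⟩ := hc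
  have h3 := (desc_act_iff h hne h1.1 v).1 h2
  have h4 := (desc_act_iff (fun h' => h h'.symm) hne.symm h3.1 v).2 h1
  exact ⟨⟨h3, h4, trivial⟩, act_comm h h1.1 h3.1 v⟩

lemma chain_of_desc {x y : Lt} (h : ¬ cox x y) (hne : x ≠ y) {v : PP n} (hx : Desc x v)
    (hy : Desc y v) : Chain [x, y] v := ⟨hx, (desc_act_iff h hne hx.1 v).2 hy, trivial⟩

lemma chain_braid {x y : Lt} (h : cox x y) {v : PP n} (hc : Chain [x, y, x] v) :
    Chain [y, x, y] v ∧ strip [y, x, y] v = strip [x, y, x] v := by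
  obtain ⟨h1, h2, h3, -⟩ := hc
  have hx := h1.1
  have hy := h2.1
  refine ⟨?_, (act_braid h hx hy v).symm⟩
  obtain ⟨i, c⟩ := x
  obtain ⟨j, d⟩ := y
  obtain ⟨hcd, hij⟩ := h
  simp only at hcd hx hy hij
  subst hcd
  unfold Desc at h1 h2 h3
  simp only [pos_act (x := (i, c)) hx, pos_act (x := (j, c)) hy, if_true] at h1 h2 h3
  have g1 := h1.2
  have g2 := h2.2
  have g3 := h3.2
  refine ⟨⟨hy, ?_⟩, ⟨hx, ?_⟩, ⟨hy, ?_⟩, trivial⟩ <;>
    simp only [pos_act (x := (i, c)) hx, pos_act (x := (j, c)) hy, if_true] <;>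
    (rcases hij with rfl | rfl) <;>
    simp only [Nat.add_sub_cancel, if_true] at g1 g2 g3 ⊢ <;>
    (split_ifs at g1 g2 g3 ⊢) <;> omega

lemma chain_cox_of_desc {x y : Lt} (h : cox x y) {v : PP n} (hx : Desc x v) (hy : Desc y v) :
    Chain [x, y, x] v := by
  obtain ⟨i, c⟩ := x
  obtain ⟨j, d⟩ := y
  obtain ⟨hcd, hij⟩ := h
  simp only at hcd hij
  subst hcd
  have hx1 := hx.1
  have hy1 := hy.1
  have g1 := hx.2
  have g2 := hy.2
  simp only at hx1 hy1 g1 g2
  refine ⟨hx, ⟨hy1, ?_⟩, ⟨hx1, ?_⟩, trivial⟩ <;>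
    simp only [pos_act (x := (i, c)) hx1, pos_act (x := (j, c)) hy1, if_true] <;>
    (rcases hij with rfl | rfl) <;>
    simp only [Nat.add_sub_cancel, if_true] at g1 g2 ⊢ <;>
    (split_ifs at g1 g2 ⊢) <;> omega

end Pool.Agent.K1H77.DW
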