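import Mathlib
import Pool.Agent.K1H77.DW.Basic

/-!
Elementary moves of reduced words in `S_n × S_n`, connectivity, and flat connections.
-/

set_option autoImplicit false

namespace Pool.Agent.K1H77.DW

open Equiv Pool.Agent.R715.HeckeA

instance : DecidableRel cox := fun x y => by unfold cox; infer_instance

/-- moves of words -/
inductive Mv : List Lt → List Lt → Prop
  | comm {x y : Lt} (h : comm x y) : Mv [x, y] [y, x]
  | mix {x y : Lt} (h : mix x y) : Mv [x, y] [y, x]
  | cox {x y : Lt} (h : cox x y) : Mv [x, y, x] [y, x, y]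

lemma Mv.symm {a b : List Lt} (h : Mv a b) : Mv b a := by
  cases h with
  | comm h => exact Mv.comm h.symm
  | mix h => exact Mv.mix h.symm
  | cox h => exact Mv.cox h.symm

/-- moves inside words -/
def Step (a b : List Lt) : Prop := ∃ u s p q, Mv p q ∧ a = u ++ (p ++ s) ∧ b = u ++ (q ++ s)

lemma Step.symm {a b : List Lt} (h : Step a b) : Step b a := by
  obtain ⟨u, s, p, q, h1, h2, h3⟩ := h
  exact ⟨u, s, q, p, h1.symm, h3, h2⟩

lemma Step.cons {a b : List Lt} (x : Lt) (h : Step a b) : Step (x :: a) (x :: b) := by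
  obtain ⟨u, s, p, q, h1, rfl, rfl⟩ := h
  exact ⟨x :: u, s, p, q, h1, rfl, rfl⟩

lemma Step.append {a b : List Lt} (u : List Lt) (h : Step a b) : Step (u ++ a) (u ++ b) := by
  induction u with
  | nil => exact h
  | cons x u ih => exact ih.cons x

lemma Mv.step {p q : List Lt} (h : Mv p q) (s : List Lt) : Step (p ++ s) (q ++ s) :=
  ⟨[], s, p, q, h, rfl, rfl⟩

variable {n : ℕ}

lemma Mv.chain {p q : List Lt} (h : Mv p q) {v : PP n} (hc : Chain p v) :
    Chain q v ∧ strip q v = strip p v := by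
  cases h with
  | comm h => exact chain_swap h.not_cox h.ne hc
  | mix h => exact chain_swap h.not_cox h.ne hc
  | cox h => exact chain_braid h hc

lemma RedR.step {a b : List Lt} {v : PP n} (h : RedR a v) (hs : Step a b) : RedR b v := by
  obtain ⟨u, s, p, q, h1, rfl, rfl⟩ := hs
  rw [redR_append] at h ⊢
  refine ⟨h.1, ?_⟩
  have h2 := h.2
  rw [redR_append] at h2 ⊢
  obtain ⟨h3, h4⟩ := h1.chain h2.1
  exact ⟨h3, by rw [h4]; exact h2.2⟩

/-- the word `x y ⋯` -/
def core (x y : Lt) : List Lt := if cox x y then [x, y, x] else [x, y]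

/-- `core x y` without its first letter -/
def tl (x y : Lt) : List Lt := if cox x y then [y, x] else [y]

lemma core_eq (x y : Lt) : core x y = x :: tl x y := by
  unfold core tl
  split_ifs <;> rfl

lemma mv_core {x y : Lt} (h : x ≠ y) : Mv (core x y) (core y x) := by
  unfold core
  by_cases hc : cox x y
  · rw [if_pos hc, if_pos hc.symm]
    exact Mv.cox hc
  · rw [if_neg hc, if_neg (fun h' => hc h'.symm)]
    rcases tri h with h1 | h1 | h1
    · exact Mv.comm h1
    · exact Mv.mix h1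
    · exact absurd h1 hc

lemma chain_core {x y : Lt} (h : x ≠ y) {v : PP n} (hx : Desc x v) (hy : Desc y v) :
    Chain (core x y) v := by
  unfold core
  by_cases hc : cox x y
  · rw [if_pos hc]
    exact chain_cox_of_desc hc hx hy
  · rw [if_neg hc]
    exact chain_of_desc hc h hx hy

/-- Any two reduced words of the same element are related by moves. -/
theorem conn (k : ℕ) : ∀ v : PP n, L v = k → ∀ a b, RedR a v → RedR b v →
    Relation.ReflTransGen Step a b := by
  induction k with
  | zero =>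
    intro v hv a b ha hb
    have h1 := ha.length
    have h2 := hb.length
    rw [hv, List.length_eq_zero_iff] at h1 h2
    rw [h1, h2]
  | succ k ih =>
    intro v hv a b ha hb
    have h1 := ha.length
    have h2 := hb.length
    obtain ⟨x, a', rfl⟩ : ∃ x a', a = x :: a' := List.exists_cons_of_ne_nil (by
      rintro rfl; simp at h1; omega)
    obtain ⟨y, b', rfl⟩ : ∃ x a', b = x :: a' := List.exists_cons_of_ne_nil (by
      rintro rfl; simp at h2; omega)
    have lift : ∀ z {c d : List Lt}, Relation.ReflTransGen Step c d →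
        Relation.ReflTransGen Step (z :: c) (z :: d) := by
      intro z c d h
      induction h with
      | refl => exact Relation.ReflTransGen.refl
      | tail _ h3 ih => exact ih.tail (h3.cons z)
    have hLx := ha.1.L
    have hLy := hb.1.L
    by_cases hxy : x = y
    · subst hxy
      exact lift x (ih (act x v) (by omega) a' b' ha.2 hb.2)
    · have hch := chain_core hxy ha.1 hb.1
      obtain ⟨r, hr⟩ := exists_redR _ (strip (core x y) v) rfl
      have h3 : RedR (core x y ++ r) v := by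
        rw [redR_append]; exact ⟨hch, hr⟩
      have hstep := (mv_core hxy).step r
      have h4 := h3.step hstep
      rw [core_eq, List.cons_append] at h3
      have h5 := h4
      rw [core_eq, List.cons_append] at h5
      have e1 := lift x (ih (act x v) (by omega) a' _ ha.2 h3.2)
      have e2 := lift y (ih (act y v) (by omega) _ b' h5.2 hb.2)
      rw [← List.cons_append, ← core_eq] at e1 e2
      exact (e1.tail hstep).trans e2

/-! ### rank three -/

lemma chain_a3 {x y z : Lt} (hxy : cox x y) (hyz : cox y z) (hxz : x ≠ z) {v : PP n}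
    (hx : Desc x v) (hy : Desc y v) (hz : Desc z v) : Chain [x, y, x, z, y, x] v := by
  obtain ⟨i, c⟩ := x
  obtain ⟨j, d⟩ := y
  obtain ⟨k, e⟩ := z
  obtain ⟨hcd, hij⟩ := hxy
  obtain ⟨hde, hjk⟩ := hyz
  simp only at hcd hij hde hjk
  subst hcd hde
  have hik : i ≠ k := fun h => hxz (by rw [h])
  have hx1 := hx.1
  have hy1 := hy.1
  have hz1 := hz.1
  have g1 := hx.2
  have g2 := hy.2
  have g3 := hz.2
  simp only at hx1 hy1 hz1 g1 g2 g3
  rcases hij with rfl | rfl <;> rcases hjk with rfl | hjk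
  · simp only [Nat.add_sub_cancel] at g2 g3
    refine ⟨hx, ⟨hy1, ?_⟩, ⟨hx1, ?_⟩, ⟨hz1, ?_⟩, ⟨hy1, ?_⟩, ⟨hx1, ?_⟩, trivial⟩ <;>
      simp only [pos_act (x := (i, c)) hx1, pos_act (x := (i + 1, c)) hy1,
        pos_act (x := (i + 1 + 1, c)) hz1, if_true] <;>
      simp only [Nat.add_sub_cancel] <;>
      (split_ifs) <;> omega
  · exact absurd (by omega) hik
  · exact absurd (by omega) hik
  · subst hjk
    simp only [Nat.add_sub_cancel] at g1 g2
    refine ⟨hx, ⟨hy1, ?_⟩, ⟨hx1, ?_⟩, ⟨hz1, ?_⟩, ⟨hy1, ?_⟩, ⟨hx1, ?_⟩, trivial⟩ <;>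
      simp only [pos_act (x := (k, c)) hz1, pos_act (x := (k + 1, c)) hy1,
        pos_act (x := (k + 1 + 1, c)) hx1, if_true] <;>
      simp only [Nat.add_sub_cancel] <;>
      (split_ifs) <;> omega

lemma chain_a21 {x y z : Lt} (hxy : cox x y) (hxz : ¬ cox x z) (hyz : ¬ cox y z) (hxz' : x ≠ z)
    (hyz' : y ≠ z) {v : PP n} (hx : Desc x v) (hy : Desc y v) (hz : Desc z v) :
    Chain [x, y, x, z] v := by
  obtain ⟨h1, h2, h3, -⟩ := chain_cox_of_desc hxy hx hy
  refine ⟨h1, h2, h3, ?_, trivial⟩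
  rw [desc_act_iff hxz hxz' h1.1, desc_act_iff hyz hyz' h2.1, desc_act_iff hxz hxz' h1.1]
  exact hz

lemma chain_a111 {x y z : Lt} (hxy : ¬ cox x y) (hxz : ¬ cox x z) (hyz : ¬ cox y z) (hxy' : x ≠ y)
    (hxz' : x ≠ z) (hyz' : y ≠ z) {v : PP n} (hx : Desc x v) (hy : Desc y v) (hz : Desc z v) :
    Chain [x, y, z] v := by
  obtain ⟨h1, h2, -⟩ := chain_of_desc hxy hxy' hx hy
  refine ⟨h1, h2, ?_, trivial⟩
  rw [desc_act_iff hyz hyz' h2.1, desc_act_iff hxz hxz' h1.1]
  exact hz

/-! ### flat connections -/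

variable {Γ : Type*} [Group Γ]

/-- A connection `F` on the words which satisfy `P`, with trivial holonomy along squares and along
the cycles of rank three. -/
structure Flat (P : List Lt → Prop) (F : List Lt → List Lt → Γ) : Prop where
  inv : ∀ a b, P a → Step a b → F a b * F b a = 1
  sq : ∀ u p q s s', P (u ++ (p ++ s)) → Mv p q → Step s s' →
    F (u ++ (p ++ s)) (u ++ (q ++ s)) * F (u ++ (q ++ s)) (u ++ (q ++ s')) =
      F (u ++ (p ++ s)) (u ++ (p ++ s')) * F (u ++ (p ++ s')) (u ++ (q ++ s'))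
  a111 : ∀ u r x y z, P (u ++ (x :: y :: z :: r)) → ¬ cox x y → ¬ cox x z → ¬ cox y z → x ≠ y →
    x ≠ z → y ≠ z →
    F (u ++ (x :: y :: z :: r)) (u ++ (y :: x :: z :: r)) *
    F (u ++ (y :: x :: z :: r)) (u ++ (y :: z :: x :: r)) *
    F (u ++ (y :: z :: x :: r)) (u ++ (z :: y :: x :: r)) *
    F (u ++ (z :: y :: x :: r)) (u ++ (z :: x :: y :: r)) *
    F (u ++ (z :: x :: y :: r)) (u ++ (x :: z :: y :: r)) *
    F (u ++ (x :: z :: y :: r)) (u ++ (x :: y :: z :: r)) = 1
  a21 : ∀ u r x y z, P (u ++ (x :: y :: x :: z :: r)) → cox x y → ¬ cox x z → ¬ cox y z →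
    x ≠ z → y ≠ z →
    F (u ++ (x :: y :: x :: z :: r)) (u ++ (y :: x :: y :: z :: r)) *
    (F (u ++ (y :: x :: y :: z :: r)) (u ++ (y :: x :: z :: y :: r)) *
    F (u ++ (y :: x :: z :: y :: r)) (u ++ (y :: z :: x :: y :: r))) *
    F (u ++ (y :: z :: x :: y :: r)) (u ++ (z :: y :: x :: y :: r)) *
    F (u ++ (z :: y :: x :: y :: r)) (u ++ (z :: x :: y :: x :: r)) *
    F (u ++ (z :: x :: y :: x :: r)) (u ++ (x :: z :: y :: x :: r)) *
    (F (u ++ (x :: z :: y :: x :: r)) (u ++ (x :: y :: z :: x :: r)) *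
    F (u ++ (x :: y :: z :: x :: r)) (u ++ (x :: y :: x :: z :: r))) = 1
  a3 : ∀ u r x y z, P (u ++ (x :: y :: x :: z :: y :: x :: r)) → cox x y → cox y z → x ≠ z →
    F (u ++ (x :: y :: x :: z :: y :: x :: r)) (u ++ (y :: x :: y :: z :: y :: x :: r)) *
    (F (u ++ (y :: x :: y :: z :: y :: x :: r)) (u ++ (y :: x :: z :: y :: z :: x :: r)) *
    F (u ++ (y :: x :: z :: y :: z :: x :: r)) (u ++ (y :: z :: x :: y :: z :: x :: r)) *
    F (u ++ (y :: z :: x :: y :: z :: x :: r)) (u ++ (y :: z :: x :: y :: x :: z :: r)) *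
    F (u ++ (y :: z :: x :: y :: x :: z :: r)) (u ++ (y :: z :: y :: x :: y :: z :: r))) *
    F (u ++ (y :: z :: y :: x :: y :: z :: r)) (u ++ (z :: y :: z :: x :: y :: z :: r)) *
    (F (u ++ (z :: y :: z :: x :: y :: z :: r)) (u ++ (z :: y :: x :: z :: y :: z :: r)) *
    F (u ++ (z :: y :: x :: z :: y :: z :: r)) (u ++ (z :: y :: x :: y :: z :: y :: r)) *
    F (u ++ (z :: y :: x :: y :: z :: y :: r)) (u ++ (z :: x :: y :: x :: z :: y :: r)) *
    F (u ++ (z :: x :: y :: x :: z :: y :: r)) (u ++ (z :: x :: y :: z :: x :: y :: r))) *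
    F (u ++ (z :: x :: y :: z :: x :: y :: r)) (u ++ (x :: z :: y :: z :: x :: y :: r)) *
    (F (u ++ (x :: z :: y :: z :: x :: y :: r)) (u ++ (x :: y :: z :: y :: x :: y :: r)) *
    F (u ++ (x :: y :: z :: y :: x :: y :: r)) (u ++ (x :: y :: z :: x :: y :: x :: r)) *
    F (u ++ (x :: y :: z :: x :: y :: x :: r)) (u ++ (x :: y :: x :: z :: y :: x :: r))) = 1

lemma conj_lemma (A B C D E G F1 F2 F3 : Γ)
    (h : F1 * (B⁻¹ * C) * F2 * (D⁻¹ * E) * F3 * (G⁻¹ * A) = 1) :
    (A * F1 * B⁻¹) * (C * F2 * D⁻¹) * (E * F3 * G⁻¹) = 1 := by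
  have e : (A * F1 * B⁻¹) * (C * F2 * D⁻¹) * (E * F3 * G⁻¹) =
      A * (F1 * (B⁻¹ * C) * F2 * (D⁻¹ * E) * F3 * (G⁻¹ * A)) * A⁻¹ := by group
  rw [e, h]
  group

/-- transition elements -/
def TT (F : List Lt → List Lt → Γ) (u : List Lt) (g : Lt → List Lt → Γ) (x y : Lt) (r : List Lt) :
    Γ := g x (tl x y ++ r) * F (u ++ (core x y ++ r)) (u ++ (core y x ++ r)) *
      (g y (tl y x ++ r))⁻¹

lemma TT_ncox {F : List Lt → List Lt → Γ} {u : List Lt} {g : Lt → List Lt → Γ} {x y : Lt}
    (h : ¬ cox x y) (r : List Lt) : TT F u g x y r =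
      g x (y :: r) * F (u ++ (x :: y :: r)) (u ++ (y :: x :: r)) * (g y (x :: r))⁻¹ := by
  have h' : ¬ cox y x := fun h1 => h h1.symm
  unfold TT tl core
  simp only [if_neg h, if_neg h']
  rfl

lemma TT_cox {F : List Lt → List Lt → Γ} {u : List Lt} {g : Lt → List Lt → Γ} {x y : Lt}
    (h : cox x y) (r : List Lt) : TT F u g x y r =
      g x (y :: x :: r) * F (u ++ (x :: y :: x :: r)) (u ++ (y :: x :: y :: r)) *
        (g y (x :: y :: r))⁻¹ := by
  unfold TT tl core
  rw [if_pos h, if_pos h.symm, if_pos h, if_pos h.symm]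
  rfl

lemma mvn {x y : Lt} (h : ¬ cox x y) (hne : x ≠ y) : Mv [x, y] [y, x] := by
  rcases tri hne with h1 | h1 | h1
  · exact Mv.comm h1
  · exact Mv.mix h1
  · exact absurd h1 h

section coc

variable {P : List Lt → Prop} {F : List Lt → List Lt → Γ} (hF : Flat P F)
  {u : List Lt} {v : PP n} (hP : ∀ w, RedR w v → P (u ++ w)) {g : Lt → List Lt → Γ}
  (hg : ∀ x, Desc x v → ∀ a b, RedR a (act x v) → Step a b →
        F (u ++ (x :: a)) (u ++ (x :: b)) = (g x a)⁻¹ * g x b)

include hF hP hg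

lemma coc_a111 {x y z : Lt} (hxy : ¬ cox x y) (hxz : ¬ cox x z) (hyz : ¬ cox y z) (hxy' : x ≠ y)
    (hxz' : x ≠ z) (hyz' : y ≠ z) {r : List Lt} (hr : RedR (x :: y :: z :: r) v) :
    TT F u g x y (z :: r) * TT F u g y z (x :: r) * TT F u g z x (y :: r) = 1 := by
  have m12 := mvn hxy hxy'
  have m13 := mvn hxz hxz'
  have m23 := mvn hyz hyz'
  have w2 : RedR (y :: x :: z :: r) v := hr.step ⟨[], z :: r, _, _, m12, rfl, rfl⟩
  have s23 : Step (x :: z :: r) (z :: x :: r) := ⟨[], r, _, _, m13, rfl, rfl⟩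
  have w3 : RedR (y :: z :: x :: r) v := w2.step (s23.cons y)
  have w4 : RedR (z :: y :: x :: r) v := w3.step ⟨[], x :: r, _, _, m23, rfl, rfl⟩
  have s45 : Step (y :: x :: r) (x :: y :: r) := ⟨[], r, _, _, m12.symm, rfl, rfl⟩
  have w5 : RedR (z :: x :: y :: r) v := w4.step (s45.cons z)
  have w6 : RedR (x :: z :: y :: r) v := w5.step ⟨[], y :: r, _, _, m13.symm, rfl, rfl⟩
  have s61 : Step (z :: y :: r) (y :: z :: r) := ⟨[], r, _, _, m23.symm, rfl, rfl⟩
  have h := hF.a111 u r x y z (hP _ hr) hxy hxz hyz hxy' hxz' hyz'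
  rw [hg y w2.1 _ _ w2.2 s23, hg z w4.1 _ _ w4.2 s45, hg x w6.1 _ _ w6.2 s61] at h
  rw [TT_ncox hxy, TT_ncox hyz, TT_ncox (fun h' => hxz h'.symm)]
  exact conj_lemma _ _ _ _ _ _ _ _ _ h

lemma coc_a21 {x y z : Lt} (hxy : cox x y) (hxz : ¬ cox x z) (hyz : ¬ cox y z)
    (hxz' : x ≠ z) (hyz' : y ≠ z) {r : List Lt} (hr : RedR (x :: y :: x :: z :: r) v) :
    TT F u g x y (z :: r) * TT F u g y z (x :: y :: r) * TT F u g z x (y :: x :: r) = 1 := by
  have m13 := mvn hxz hxz'
  have m23 := mvn hyz hyz'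
  have w2 : RedR (y :: x :: y :: z :: r) v := hr.step ⟨[], z :: r, _, _, Mv.cox hxy, rfl, rfl⟩
  have s23 : Step (x :: y :: z :: r) (x :: z :: y :: r) := ⟨[x], r, _, _, m23, rfl, rfl⟩
  have w3 := w2.step (s23.cons y)
  have s34 : Step (x :: z :: y :: r) (z :: x :: y :: r) := ⟨[], y :: r, _, _, m13, rfl, rfl⟩
  have w4 := w3.step (s34.cons y)
  have w5 : RedR (z :: y :: x :: y :: r) v := w4.step ⟨[], x :: y :: r, _, _, m23, rfl, rfl⟩
  have s56 : Step (y :: x :: y :: r) (x :: y :: x :: r) := ⟨[], r, _, _, Mv.cox hxy.symm, rfl, rfl⟩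
  have w6 := w5.step (s56.cons z)
  have w7 : RedR (x :: z :: y :: x :: r) v :=
    w6.step ⟨[], y :: x :: r, _, _, m13.symm, rfl, rfl⟩
  have s78 : Step (z :: y :: x :: r) (y :: z :: x :: r) := ⟨[], x :: r, _, _, m23.symm, rfl, rfl⟩
  have w8 := w7.step (s78.cons x)
  have s81 : Step (y :: z :: x :: r) (y :: x :: z :: r) := ⟨[y], r, _, _, m13.symm, rfl, rfl⟩
  have h := hF.a21 u r x y z (hP _ hr) hxy hxz hyz hxz' hyz'
  rw [hg y w2.1 _ _ w2.2 s23, hg y w3.1 _ _ w3.2 s34, hg z w5.1 _ _ w5.2 s56,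
    hg x w7.1 _ _ w7.2 s78, hg x w8.1 _ _ w8.2 s81] at h
  rw [TT_cox hxy, TT_ncox hyz, TT_ncox (fun h' => hxz h'.symm)]
  refine conj_lemma _ _ _ _ _ _ _ _ _ (Eq.trans ?_ h)
  group

lemma coc_a3 {x y z : Lt} (hxy : cox x y) (hyz : cox y z) (hxz' : x ≠ z) {r : List Lt}
    (hr : RedR (x :: y :: x :: z :: y :: x :: r) v) :
    TT F u g x y (z :: y :: x :: r) * TT F u g y z (x :: y :: z :: r) *
      TT F u g z x (y :: z :: x :: y :: r) = 1 := by
  have hxz : ¬ cox x z := by
    intro h
    have h1 := hxy.2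
    have h2 := hyz.2
    have h3 := h.2
    have h4 : x.1 ≠ z.1 := fun e => hxz' (Prod.ext e (hxy.1.trans hyz.1))
    omega
  have m13 := mvn hxz hxz'
  -- word number 16
  have w16 : RedR (y :: x :: y :: z :: y :: x :: r) v :=
    hr.step ⟨[], z :: y :: x :: r, _, _, Mv.cox hxy, rfl, rfl⟩
  have s1 : Step (x :: y :: z :: y :: x :: r) (x :: z :: y :: z :: x :: r) :=
    ⟨[x], x :: r, _, _, Mv.cox hyz, rfl, rfl⟩
  have w15 := w16.step (s1.cons y)
  have s2 : Step (x :: z :: y :: z :: x :: r) (z :: x :: y :: z :: x :: r) :=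
    ⟨[], y :: z :: x :: r, _, _, m13, rfl, rfl⟩
  have w14 := w15.step (s2.cons y)
  have s3 : Step (z :: x :: y :: z :: x :: r) (z :: x :: y :: x :: z :: r) :=
    ⟨[z, x, y], r, _, _, m13.symm, rfl, rfl⟩
  have w12 := w14.step (s3.cons y)
  have s4 : Step (z :: x :: y :: x :: z :: r) (z :: y :: x :: y :: z :: r) :=
    ⟨[z], z :: r, _, _, Mv.cox hxy, rfl, rfl⟩
  have w11 := w12.step (s4.cons y)
  have w10 : RedR (z :: y :: z :: x :: y :: z :: r) v :=
    w11.step ⟨[], x :: y :: z :: r, _, _, Mv.cox hyz, rfl, rfl⟩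
  have s5 : Step (y :: z :: x :: y :: z :: r) (y :: x :: z :: y :: z :: r) :=
    ⟨[y], y :: z :: r, _, _, m13.symm, rfl, rfl⟩
  have w9 := w10.step (s5.cons z)
  have s6 : Step (y :: x :: z :: y :: z :: r) (y :: x :: y :: z :: y :: r) :=
    ⟨[y, x], r, _, _, Mv.cox hyz.symm, rfl, rfl⟩
  have w8 := w9.step (s6.cons z)
  have s7 : Step (y :: x :: y :: z :: y :: r) (x :: y :: x :: z :: y :: r) :=
    ⟨[], z :: y :: r, _, _, Mv.cox hxy.symm, rfl, rfl⟩
  have w7 := w8.step (s7.cons z)
  have s8 : Step (x :: y :: x :: z :: y :: r) (x :: y :: z :: x :: y :: r) :=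
    ⟨[x, y], y :: r, _, _, m13, rfl, rfl⟩
  have w6 := w7.step (s8.cons z)
  have w4 : RedR (x :: z :: y :: z :: x :: y :: r) v :=
    w6.step ⟨[], y :: z :: x :: y :: r, _, _, m13.symm, rfl, rfl⟩
  have s9 : Step (z :: y :: z :: x :: y :: r) (y :: z :: y :: x :: y :: r) :=
    ⟨[], x :: y :: r, _, _, Mv.cox hyz.symm, rfl, rfl⟩
  have w3 := w4.step (s9.cons x)
  have s10 : Step (y :: z :: y :: x :: y :: r) (y :: z :: x :: y :: x :: r) :=
    ⟨[y, z], r, _, _, Mv.cox hxy.symm, rfl, rfl⟩
  have w2 := w3.step (s10.cons x)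
  have s11 : Step (y :: z :: x :: y :: x :: r) (y :: x :: z :: y :: x :: r) :=
    ⟨[y], y :: x :: r, _, _, m13.symm, rfl, rfl⟩
  have h := hF.a3 u r x y z (hP _ hr) hxy hyz hxz'
  rw [hg y w16.1 _ _ w16.2 s1, hg y w15.1 _ _ w15.2 s2, hg y w14.1 _ _ w14.2 s3,
    hg y w12.1 _ _ w12.2 s4, hg z w10.1 _ _ w10.2 s5, hg z w9.1 _ _ w9.2 s6,
    hg z w8.1 _ _ w8.2 s7, hg z w7.1 _ _ w7.2 s8, hg x w4.1 _ _ w4.2 s9,
    hg x w3.1 _ _ w3.2 s10, hg x w2.1 _ _ w2.2 s11] at h
  rw [TT_cox hxy, TT_cox hyz, TT_ncox (fun h' => hxz h'.symm)]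
  refine conj_lemma _ _ _ _ _ _ _ _ _ (Eq.trans ?_ h)
  group

end coc

lemma RedR.steps {a b : List Lt} {v : PP n} (h : RedR a v) (hs : Relation.ReflTransGen Step a b) :
    RedR b v := by
  induction hs with
  | refl => exact h
  | tail _ h2 ih => exact ih.step h2

/-- **Flat connections have potentials.** -/
theorem exists_potential {P : List Lt → Prop} {F : List Lt → List Lt → Γ} (hF : Flat P F) (k : ℕ) :
    ∀ (u : List Lt) (v : PP n), L v = k → (∀ w, RedR w v → P (u ++ w)) →
      ∃ g : List Lt → Γ, ∀ a b, RedR a v → Step a b → F (u ++ a) (u ++ b) = (g a)⁻¹ * g b := by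
  induction k with
  | zero =>
    intro u v hv hP
    refine ⟨fun _ => 1, fun a b ha hs => ?_⟩
    exfalso
    have h1 := ha.length
    rw [hv, List.length_eq_zero_iff] at h1
    subst h1
    obtain ⟨u', s, p, q, h1, h2, -⟩ := hs
    cases h1 <;> simp at h2
  | succ k ih =>
    intro u v hv hP
    -- potentials for the words with given first letter
    have hg : ∀ x : Lt, ∃ g : List Lt → Γ, Desc x v → ∀ a b, RedR a (act x v) → Step a b →
        F (u ++ (x :: a)) (u ++ (x :: b)) = (g a)⁻¹ * g b := by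
      intro x
      by_cases hx : Desc x v
      · have hL := hx.L
        obtain ⟨g, hg⟩ := ih (u ++ [x]) (act x v) (by omega) (fun w hw => by
          have := hP (x :: w) ⟨hx, hw⟩
          simpa using this)
        refine ⟨g, fun _ a b ha hs => ?_⟩
        have := hg a b ha hs
        simpa using this
      · exact ⟨fun _ => 1, fun h => absurd h hx⟩
    choose g hg using hg
    have hred : ∀ {x y : Lt} {r : List Lt}, x ≠ y → Desc x v → Desc y v →
        RedR r (strip (core x y) v) → RedR (core x y ++ r) v := fun hxy hx hy hr => by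
      rw [redR_append]; exact ⟨chain_core hxy hx hy, hr⟩
    have hstrip : ∀ {x y : Lt}, x ≠ y → Desc x v → Desc y v →
        strip (core y x) v = strip (core x y) v := fun hxy hx hy =>
      ((mv_core hxy).chain (chain_core hxy hx hy)).2
    have hTstep : ∀ {x y : Lt} {r r' : List Lt}, x ≠ y → Desc x v → Desc y v →
        RedR r (strip (core x y) v) → Step r r' → TT F u g x y r = TT F u g x y r' := by
      intro x y r r' hxy hx hy hr hs
      have h1 := hred hxy hx hy hr
      have h2 : RedR (core y x ++ r) v := h1.step ((mv_core hxy).step r)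
      have hsq := hF.sq u (core x y) (core y x) r r' (hP _ h1) (mv_core hxy) hs
      have h1' := h1
      have h2' := h2
      rw [core_eq, List.cons_append] at h1' h2'
      have e1 := hg x hx (tl x y ++ r) (tl x y ++ r') h1'.2 (hs.append _)
      have e2 := hg y hy (tl y x ++ r) (tl y x ++ r') h2'.2 (hs.append _)
      rw [← List.cons_append, ← List.cons_append, ← core_eq] at e1 e2
      unfold TT
      rw [e1, e2] at hsq
      have h3 : F (u ++ (core x y ++ r')) (u ++ (core y x ++ r')) =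
          ((g x (tl x y ++ r))⁻¹ * g x (tl x y ++ r'))⁻¹ *
            (F (u ++ (core x y ++ r)) (u ++ (core y x ++ r)) *
              ((g y (tl y x ++ r))⁻¹ * g y (tl y x ++ r'))) := by
        rw [hsq]; group
      rw [h3]
      group
    have hTconst : ∀ {x y : Lt} {r r' : List Lt}, x ≠ y → Desc x v → Desc y v →
        RedR r (strip (core x y) v) → RedR r' (strip (core x y) v) →
          TT F u g x y r = TT F u g x y r' := by
      intro x y r r' hxy hx hy hr hr'
      have hc := conn _ _ rfl r r' hr hr'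
      clear hr'
      induction hc with
      | refl => rfl
      | tail h1 h2 ih2 =>
        rw [ih2]
        exact hTstep hxy hx hy (hr.steps h1) h2
    have hTinv : ∀ {x y : Lt} {r : List Lt}, x ≠ y → Desc x v → Desc y v →
        RedR r (strip (core x y) v) → TT F u g x y r * TT F u g y x r = 1 := by
      intro x y r hxy hx hy hr
      have h1 := hF.inv _ _ (hP _ (hred hxy hx hy hr)) (((mv_core hxy).step r).append u)
      unfold TT
      have e : ∀ A B C D : Γ, C * D = 1 → A * C * B⁻¹ * (B * D * A⁻¹) = 1 := by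
        intro A B C D h
        have : A * C * B⁻¹ * (B * D * A⁻¹) = A * (C * D) * A⁻¹ := by group
        rw [this, h]; group
      exact e _ _ _ _ h1
    -- a function of pairs of letters
    have hex : ∀ x y : Lt, ∃ t : Γ, x ≠ y → Desc x v → Desc y v →
        ∀ r, RedR r (strip (core x y) v) → TT F u g x y r = t := by
      intro x y
      by_cases h : x ≠ y ∧ Desc x v ∧ Desc y v
      · obtain ⟨hxy, hx, hy⟩ := h
        obtain ⟨r0, hr0⟩ := exists_redR _ (strip (core x y) v) rfl
        exact ⟨TT F u g x y r0, fun _ _ _ r hr => hTconst hxy hx hy hr hr0⟩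
      · exact ⟨1, fun h1 h2 h3 => absurd ⟨h1, h2, h3⟩ h⟩
    choose T hT using hex
    have hT2 : ∀ {x y : Lt}, x ≠ y → Desc x v → Desc y v → T x y * T y x = 1 := by
      intro x y hxy hx hy
      obtain ⟨r, hr⟩ := exists_redR _ (strip (core x y) v) rfl
      rw [← hT x y hxy hx hy r hr, ← hT y x hxy.symm hy hx r (by rw [hstrip hxy hx hy]; exact hr)]
      exact hTinv hxy hx hy hr
    have tailRed : ∀ {p r : List Lt}, RedR (p ++ r) v → RedR r (strip p v) := fun h =>
      ((redR_append _ _ _).1 h).2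
    have c111 : ∀ {x y z : Lt}, ¬ cox x y → ¬ cox x z → ¬ cox y z → x ≠ y → x ≠ z → y ≠ z →
        Desc x v → Desc y v → Desc z v → T x y * T y z * T z x = 1 := by
      intro x y z hxy hxz hyz hxy' hxz' hyz' hx hy hz
      obtain ⟨r, hr⟩ := exists_redR _ (strip [x, y, z] v) rfl
      have hW : RedR (x :: y :: z :: r) v := (redR_append [x, y, z] r v).2
        ⟨chain_a111 hxy hxz hyz hxy' hxz' hyz' hx hy hz, hr⟩
      have m12 := mvn hxy hxy'
      have m13 := mvn hxz hxz'
      have m23 := mvn hyz hyz'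
      have hWy : RedR (y :: z :: x :: r) v :=
        (hW.step ⟨[], z :: r, _, _, m12, rfl, rfl⟩).step ⟨[y], r, _, _, m13, rfl, rfl⟩
      have hWz : RedR (z :: x :: y :: r) v :=
        (hWy.step ⟨[], x :: r, _, _, m23, rfl, rfl⟩).step ⟨[z], r, _, _, m12.symm, rfl, rfl⟩
      have h := coc_a111 hF hP hg hxy hxz hyz hxy' hxz' hyz' hW
      have hzx : ¬ cox z x := fun h' => hxz h'.symm
      rw [hT x y hxy' hx hy (z :: r) (tailRed (by unfold core; rw [if_neg hxy]; exact hW)),
        hT y z hyz' hy hz (x :: r) (tailRed (by unfold core; rw [if_neg hyz]; exact hWy)),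
        hT z x hxz'.symm hz hx (y :: r) (tailRed (by unfold core; rw [if_neg hzx]; exact hWz))] at h
      exact h
    have c21 : ∀ {x y z : Lt}, cox x y → ¬ cox x z → ¬ cox y z → x ≠ z → y ≠ z →
        Desc x v → Desc y v → Desc z v → T x y * T y z * T z x = 1 := by
      intro x y z hxy hxz hyz hxz' hyz' hx hy hz
      obtain ⟨r, hr⟩ := exists_redR _ (strip [x, y, x, z] v) rfl
      have hW : RedR (x :: y :: x :: z :: r) v := (redR_append [x, y, x, z] r v).2
        ⟨chain_a21 hxy hxz hyz hxz' hyz' hx hy hz, hr⟩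
      have m13 := mvn hxz hxz'
      have m23 := mvn hyz hyz'
      have hWy : RedR (y :: z :: x :: y :: r) v :=
        ((hW.step ⟨[], z :: r, _, _, Mv.cox hxy, rfl, rfl⟩).step
          ⟨[y, x], r, _, _, m23, rfl, rfl⟩).step ⟨[y], y :: r, _, _, m13, rfl, rfl⟩
      have hWz : RedR (z :: x :: y :: x :: r) v :=
        (hWy.step ⟨[], x :: y :: r, _, _, m23, rfl, rfl⟩).step
          ⟨[z], r, _, _, Mv.cox hxy.symm, rfl, rfl⟩
      have h := coc_a21 hF hP hg hxy hxz hyz hxz' hyz' hW
      have hzx : ¬ cox z x := fun h' => hxz h'.symm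
      rw [hT x y hxy.ne hx hy (z :: r) (tailRed (by unfold core; rw [if_pos hxy]; exact hW)),
        hT y z hyz' hy hz (x :: y :: r) (tailRed (by unfold core; rw [if_neg hyz]; exact hWy)),
        hT z x hxz'.symm hz hx (y :: x :: r)
          (tailRed (by unfold core; rw [if_neg hzx]; exact hWz))] at h
      exact h
    have c3 : ∀ {x y z : Lt}, cox x y → cox y z → x ≠ z →
        Desc x v → Desc y v → Desc z v → T x y * T y z * T z x = 1 := by
      intro x y z hxy hyz hxz' hx hy hz
      have hxz : ¬ cox x z := by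
        intro h
        have h1 := hxy.2
        have h2 := hyz.2
        have h3 := h.2
        have h4 : x.1 ≠ z.1 := fun e => hxz' (Prod.ext e (hxy.1.trans hyz.1))
        omega
      obtain ⟨r, hr⟩ := exists_redR _ (strip [x, y, x, z, y, x] v) rfl
      have hW : RedR (x :: y :: x :: z :: y :: x :: r) v :=
        (redR_append [x, y, x, z, y, x] r v).2 ⟨chain_a3 hxy hyz hxz' hx hy hz, hr⟩
      have m13 := mvn hxz hxz'
      have hWy : RedR (y :: z :: y :: x :: y :: z :: r) v :=
        ((((hW.step ⟨[], z :: y :: x :: r, _, _, Mv.cox hxy, rfl, rfl⟩).step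
          ⟨[y, x], x :: r, _, _, Mv.cox hyz, rfl, rfl⟩).step
          ⟨[y], y :: z :: x :: r, _, _, m13, rfl, rfl⟩).step
          ⟨[y, z, x, y], r, _, _, m13.symm, rfl, rfl⟩).step
          ⟨[y, z], z :: r, _, _, Mv.cox hxy, rfl, rfl⟩
      have hWz : RedR (z :: x :: y :: z :: x :: y :: r) v :=
        ((((hWy.step ⟨[], x :: y :: z :: r, _, _, Mv.cox hyz, rfl, rfl⟩).step
          ⟨[z, y], y :: z :: r, _, _, m13.symm, rfl, rfl⟩).step
          ⟨[z, y, x], r, _, _, Mv.cox hyz.symm, rfl, rfl⟩).step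
          ⟨[z], z :: y :: r, _, _, Mv.cox hxy.symm, rfl, rfl⟩).step
          ⟨[z, x, y], y :: r, _, _, m13, rfl, rfl⟩
      have h := coc_a3 hF hP hg hxy hyz hxz' hW
      have hzx : ¬ cox z x := fun h' => hxz h'.symm
      rw [hT x y hxy.ne hx hy (z :: y :: x :: r)
          (tailRed (by unfold core; rw [if_pos hxy]; exact hW)),
        hT y z hyz.ne hy hz (x :: y :: z :: r)
          (tailRed (by unfold core; rw [if_pos hyz]; exact hWy)),
        hT z x hxz'.symm hz hx (y :: z :: x :: y :: r)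
          (tailRed (by unfold core; rw [if_neg hzx]; exact hWz))] at h
      exact h
    -- symmetries of the cocycle condition
    have rot : ∀ {x y z : Lt}, T x y * T y z * T z x = 1 → T y z * T z x * T x y = 1 := by
      intro x y z h
      have : T y z * T z x * T x y = (T x y)⁻¹ * (T x y * T y z * T z x) * T x y := by group
      rw [this, h]; group
    have flip : ∀ {x y z : Lt}, x ≠ y → x ≠ z → y ≠ z → Desc x v → Desc y v → Desc z v →
        T x y * T y z * T z x = 1 → T x z * T z y * T y x = 1 := by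
      intro x y z hxy hxz hyz hx hy hz h
      have e1 : T x z = (T z x)⁻¹ := eq_inv_of_mul_eq_one_left (hT2 hxz hx hz)
      have e2 : T z y = (T y z)⁻¹ := eq_inv_of_mul_eq_one_left (hT2 hyz.symm hz hy)
      have e3 : T y x = (T x y)⁻¹ := eq_inv_of_mul_eq_one_left (hT2 hxy.symm hy hx)
      have : T x z * T z y * T y x = (T x y * T y z * T z x)⁻¹ := by
        rw [e1, e2, e3]; group
      rw [this, h, inv_one]
    have coc : ∀ {x y z : Lt}, x ≠ y → x ≠ z → y ≠ z → Desc x v → Desc y v → Desc z v →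
        T x y * T y z * T z x = 1 := by
      intro x y z hxy hxz hyz hx hy hz
      by_cases c1 : cox x y
      · by_cases c2 : cox y z
        · exact c3 c1 c2 hxz hx hy hz
        · by_cases c4 : cox x z
          · -- `x` is the middle one: `y x z`
            have h := c3 c1.symm c4 hyz hy hx hz
            -- T y x * T x z * T z y = 1
            have h' := flip hxy.symm hyz hxz hy hx hz h
            -- T y z * T z x * T x y = 1
            exact rot (rot h')
          · exact c21 c1 c4 c2 hxz hyz hx hy hz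
      · by_cases c2 : cox y z
        · by_cases c4 : cox x z
          · -- `z` is the middle one: `x z y`
            have h := c3 c4 c2.symm hxy hx hz hy
            -- T x z * T z y * T y x = 1
            exact flip hxz hxy hyz.symm hx hz hy h
          · have h := c21 c2 (fun h' => c1 h'.symm) (fun h' => c4 h'.symm) hxy.symm hxz.symm
              hy hz hx
            exact rot (rot h)
        · by_cases c4 : cox x z
          · have h := c21 c4.symm (fun h' => c2 h'.symm) c1 hyz.symm hxy hz hx hy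
            exact rot h
          · exact c111 c1 c4 c2 hxy hxz hyz hx hy hz
    -- base letter
    obtain ⟨x0, hx0⟩ := exists_desc (v := v) (by omega)
    let c : Lt → Γ := fun x => if x = x0 then 1 else T x0 x
    have hc : ∀ {x y : Lt}, x ≠ y → Desc x v → Desc y v → (c x)⁻¹ * c y = T x y := by
      intro x y hxy hx hy
      simp only [c]
      by_cases h1 : x = x0
      · rw [if_pos h1, if_neg (fun h => hxy (h1.trans h.symm)), h1]
        group
      · by_cases h2 : y = x0
        · rw [if_neg h1, if_pos h2, mul_one, h2]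
          exact (eq_inv_of_mul_eq_one_left (hT2 h1 hx hx0)).symm
        · rw [if_neg h1, if_neg h2]
          have h3 := coc (Ne.symm h1) (Ne.symm h2) hxy hx0 hx hy
          have h4 : T y x0 = (T x0 y)⁻¹ := eq_inv_of_mul_eq_one_left (hT2 h2 hy hx0)
          rw [h4] at h3
          have h5 : T x0 x * T x y = T x0 y := by
            rw [mul_inv_eq_one] at h3
            exact h3
          rw [← h5]
          group
    let G : List Lt → Γ := fun a => match a with
      | [] => 1
      | x :: a => c x * g x a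
    refine ⟨G, fun a b ha hs => ?_⟩
    obtain ⟨u', s, p, q, h1, rfl, rfl⟩ := hs
    cases u' with
    | cons x u' =>
      have h2 := hg x ha.1 (u' ++ (p ++ s)) (u' ++ (q ++ s)) ha.2 ⟨u', s, p, q, h1, rfl, rfl⟩
      change F (u ++ (x :: (u' ++ (p ++ s)))) (u ++ (x :: (u' ++ (q ++ s)))) =
        (c x * g x (u' ++ (p ++ s)))⁻¹ * (c x * g x (u' ++ (q ++ s)))
      rw [h2]
      group
    | nil =>
      -- move at the front
      obtain ⟨x, y, hxy, rfl, rfl⟩ : ∃ x y, x ≠ y ∧ p = core x y ∧ q = core y x := by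
        cases h1 with
        | @comm x y h => exact ⟨x, y, h.ne, by unfold core; rw [if_neg h.not_cox],
            by unfold core; rw [if_neg h.symm.not_cox]⟩
        | @mix x y h => exact ⟨x, y, h.ne, by unfold core; rw [if_neg h.not_cox],
            by unfold core; rw [if_neg h.symm.not_cox]⟩
        | @cox x y h => exact ⟨x, y, h.ne, by unfold core; rw [if_pos h],
            by unfold core; rw [if_pos h.symm]⟩
      have ha' : RedR (core x y ++ s) v := ha
      have hb' : RedR (core y x ++ s) v := ha'.step ((mv_core hxy).step s)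
      have hx : Desc x v := by
        rw [core_eq] at ha'; exact ha'.1
      have hy : Desc y v := by
        rw [core_eq] at hb'; exact hb'.1
      have h3 := hT x y hxy hx hy s (tailRed ha')
      have h4 := hc hxy hx hy
      rw [← h3] at h4
      have e1 : G (core x y ++ s) = c x * g x (tl x y ++ s) := by
        rw [core_eq]; rfl
      have e2 : G (core y x ++ s) = c y * g y (tl y x ++ s) := by
        rw [core_eq]; rfl
      change F (u ++ (core x y ++ s)) (u ++ (core y x ++ s)) = (G (core x y ++ s))⁻¹ *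
        G (core y x ++ s)
      rw [e1, e2]
      unfold TT at h4
      have h5 : F (u ++ (core x y ++ s)) (u ++ (core y x ++ s)) =
          (g x (tl x y ++ s))⁻¹ * ((c x)⁻¹ * c y) * g y (tl y x ++ s) := by
        rw [h4]; group
      rw [h5]
      group

end Pool.Agent.K1H77.DW
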