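import Mathlib
import Pool.Agent.K1H77.DW.Step

/-!
Double wiring diagrams, the flip graph and its two-dimensional cells.
-/

set_option autoImplicit false

namespace Pool.Agent.K1H77.DW

open Equiv Pool.Agent.R715.HeckeA

/-! ### Definitions -/

/-- `u` is a reduced word for the longest permutation `w₀` of `n` letters: a word of length
`n choose 2` in the adjacent transpositions `s₁, …, s_{n-1}` with product `w₀`. -/
def IsRedW0 (n : ℕ) (u : List ℕ) : Prop :=
  (∀ i ∈ u, 1 ≤ i ∧ i < n) ∧ (u.map (adj n)).prod = Fin.revPerm ∧ u.length = n.choose 2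

/-- The indices of the letters of colour `c` of a word, read in order. -/
def letters (c : Bool) (w : List Lt) : List ℕ := (w.filter (fun x => x.2 = c)).map Prod.fst

/-- Double wiring diagrams on `n` strands, as words. -/
def IsDWD (n : ℕ) (w : List Lt) : Prop := ∀ c, IsRedW0 n (letters c w)

/-- Two words differ by a commutation. -/
def CommStep (a b : List Lt) : Prop :=
  ∃ u s x y, comm x y ∧ a = u ++ x :: y :: s ∧ b = u ++ y :: x :: s

/-- Two words differ by a mixed move. -/
def MixStep (a b : List Lt) : Prop :=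
  ∃ u s x y, mix x y ∧ a = u ++ x :: y :: s ∧ b = u ++ y :: x :: s

/-- Two words differ by a Coxeter move of colour `c`. -/
def CoxStep (c : Bool) (a b : List Lt) : Prop :=
  ∃ u s x y, cox x y ∧ x.2 = c ∧ a = u ++ x :: y :: x :: s ∧ b = u ++ y :: x :: y :: s

/-- Commutation classes of words. -/
def Cls : Type := Quot CommStep

/-- The class of a word. -/
def cls (w : List Lt) : Cls := Quot.mk _ w

/-- The vertices of the flip graph: the classes of double wiring diagrams. -/
def Vx (n : ℕ) : Type := {A : Cls // ∃ w, IsDWD n w ∧ cls w = A}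

/-- flips of words -/
def Flip (a b : List Lt) : Prop := MixStep a b ∨ ∃ c, CoxStep c a b

/-- Two classes are joined by a flip. -/
def AdjC (n : ℕ) (A B : Cls) : Prop :=
  ∃ a b, IsDWD n a ∧ IsDWD n b ∧ cls a = A ∧ cls b = B ∧ Flip a b

/-- Two classes are joined by a Coxeter move of colour `c`. -/
def CoxC (n : ℕ) (c : Bool) (A B : Cls) : Prop :=
  ∃ a b, IsDWD n a ∧ IsDWD n b ∧ cls a = A ∧ cls b = B ∧ CoxStep c a b

/-! ### Invariants of commutation classes -/

lemma filter_eq_of_cls {S : Lt → Bool} (hS : ∀ x y, comm x y → ¬ (S x = true ∧ S y = true))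
    {a b : List Lt} (h : cls a = cls b) : a.filter S = b.filter S := by
  have h1 : ∀ a b, CommStep a b → a.filter S = b.filter S := by
    rintro a b ⟨u, s, x, y, hxy, rfl, rfl⟩
    have := hS x y hxy
    rw [List.filter_append, List.filter_append]
    congr 1
    cases hx : S x <;> cases hy : S y <;> simp_all
  exact congrArg (Quot.lift (fun w : List Lt => w.filter S) h1) h

/-- the letters `x` and `y` -/
def SS (x y : Lt) : Lt → Bool := fun l => decide (l = x ∨ l = y)

lemma SS_ok {x y : Lt} (h : ¬ comm x y) : ∀ a b, comm a b → ¬ (SS x y a = true ∧ SS x y b = true) := by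
  rintro a b hab ⟨h1, h2⟩
  simp only [SS, decide_eq_true_eq] at h1 h2
  rcases h1 with rfl | rfl <;> rcases h2 with rfl | rfl
  · exact hab.ne rfl
  · exact h hab
  · exact h hab.symm
  · exact hab.ne rfl

lemma sep {x y : Lt} (h : ¬ comm x y) {u r W W' : List Lt}
    (he : cls (u ++ (W ++ r)) = cls (u ++ (W' ++ r))) : W.filter (SS x y) = W'.filter (SS x y) := by
  have := filter_eq_of_cls (SS_ok h) he
  rw [List.filter_append, List.filter_append, List.filter_append, List.filter_append] at this
  exact List.append_cancel_right (List.append_cancel_left this)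

lemma mix_not_comm {x y : Lt} (h : mix x y) : ¬ comm x y := fun h' => h'.not_mix h

lemma cox_not_comm {x y : Lt} (h : cox x y) : ¬ comm x y := fun h' => h'.not_cox h

lemma flip_ne {a b : List Lt} (h : Flip a b) : cls a ≠ cls b := by
  intro he
  rcases h with ⟨u, s, x, y, hxy, rfl, rfl⟩ | ⟨c, u, s, x, y, hxy, -, rfl, rfl⟩
  · have := sep (mix_not_comm hxy) (W := [x, y]) (W' := [y, x]) (r := s) he
    simp [SS] at this
    exact hxy.ne this.1
  · have := sep (cox_not_comm hxy) (W := [x, y, x]) (W' := [y, x, y]) (r := s) he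
    simp [SS] at this
    exact hxy.ne this.1

lemma Flip.symm {a b : List Lt} (h : Flip a b) : Flip b a := by
  rcases h with ⟨u, s, x, y, hxy, h1, h2⟩ | ⟨c, u, s, x, y, hxy, hc, h1, h2⟩
  · exact Or.inl ⟨u, s, y, x, hxy.symm, h2, h1⟩
  · exact Or.inr ⟨c, u, s, y, x, hxy.symm, by rw [← hxy.1, hc], h2, h1⟩

lemma AdjC.symm {n : ℕ} {A B : Cls} (h : AdjC n A B) : AdjC n B A := by
  obtain ⟨a, b, h1, h2, h3, h4, h5⟩ := h
  exact ⟨b, a, h2, h1, h4, h3, h5.symm⟩

lemma AdjC.ne {n : ℕ} {A B : Cls} (h : AdjC n A B) : A ≠ B := by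
  obtain ⟨a, b, -, -, rfl, rfl, h5⟩ := h
  exact flip_ne h5

lemma CoxC.symm {n : ℕ} {c : Bool} {A B : Cls} (h : CoxC n c A B) : CoxC n c B A := by
  obtain ⟨a, b, h1, h2, h3, h4, u, s, x, y, hxy, hc, h5, h6⟩ := h
  exact ⟨b, a, h2, h1, h4, h3, u, s, y, x, hxy.symm, by rw [← hxy.1, hc], h6, h5⟩

lemma CoxC.adj {n : ℕ} {c : Bool} {A B : Cls} (h : CoxC n c A B) : AdjC n A B := by
  obtain ⟨a, b, h1, h2, h3, h4, h5⟩ := h
  exact ⟨a, b, h1, h2, h3, h4, Or.inr ⟨c, h5⟩⟩

/-- **The flip graph** `G_n`. -/
def FG (n : ℕ) : SimpleGraph (Vx n) where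
  Adj A B := AdjC n A.1 B.1
  symm := ⟨fun _ _ h => h.symm⟩
  loopless := ⟨fun _ h => h.ne rfl⟩

/-- The closed walks along which the two-dimensional cells of `X_n` are attached: the cycles of
length 4, the cycles of length 5, and the cycles of length 8 all of whose edges are Coxeter moves
of one and the same colour. -/
def IsCell {n : ℕ} {A : Vx n} (w : (FG n).Walk A A) : Prop :=
  w.IsCycle ∧ (w.length = 4 ∨ w.length = 5 ∨
    (w.length = 8 ∧ ∃ c, ∀ d ∈ w.darts, CoxC n c d.fst.1 d.snd.1))

/-! ### Double wiring diagrams and reduced words in `S_n × S_n` -/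

variable {n : ℕ}

lemma eq_one_of_len {σ : Perm (Fin n)} (h : len σ = 0) : σ = 1 := by
  by_contra hc
  obtain ⟨i, hi, h1⟩ := exists_descent hc
  have := (adj_mul_len_lt_iff hi).2 h1
  omega

lemma letters_cons (c : Bool) (x : Lt) (w : List Lt) :
    letters c (x :: w) = if x.2 = c then x.1 :: letters c w else letters c w := by
  unfold letters
  rw [List.filter_cons]
  by_cases h : x.2 = c <;> simp [h]

lemma redR_iff (w : List Lt) : ∀ v : PP n, RedR w v ↔ ∀ c, Red n (letters c w) (v c) := by
  induction w with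
  | nil =>
    intro v
    constructor
    · intro h c
      have h1 : len (v c) = 0 := by
        have h2 : len (v false) + len (v true) = 0 := h
        cases c <;> omega
      exact ⟨⟨by simp [letters], by simp [letters, eq_one_of_len h1]⟩, by simp [letters, h1]⟩
    · intro h
      have h1 := (h false).2
      have h2 := (h true).2
      simp only [letters, List.filter_nil, List.map_nil, List.length_nil] at h1 h2
      change len (v false) + len (v true) = 0
      omega
  | cons x w ih =>
    intro v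
    constructor
    · rintro ⟨h1, h2⟩ c
      rw [ih] at h2
      rw [letters_cons]
      by_cases hc : x.2 = c
      · rw [if_pos hc]
        subst hc
        have h3 := h2 x.2
        rw [act_same] at h3
        have h4 := len_adj_mul_of_gt h1.1 ((pos_lt_iff h1.1 _).1 h1.2)
        have h5 := h3.cons h1.1 (by rw [adj_mul_adj_mul]; exact h4)
        rwa [adj_mul_adj_mul] at h5
      · rw [if_neg hc]
        have h3 := h2 c
        rwa [act_ne (Ne.symm hc)] at h3
    · intro h
      have h1 := h x.2
      rw [letters_cons, if_pos rfl] at h1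
      obtain ⟨h2, h3, h4⟩ := h1.tail
      refine ⟨⟨h2, (pos_lt_iff h2 _).2 ((adj_mul_len_lt_iff h2).1 (by omega))⟩, ?_⟩
      rw [ih]
      intro c
      by_cases hc : c = x.2
      · subst hc
        rw [act_same]
        exact h3
      · rw [act_ne hc]
        have h5 := h c
        rwa [letters_cons, if_neg (Ne.symm hc)] at h5

lemma len_rev (n : ℕ) : len (Fin.revPerm : Perm (Fin n)) = n.choose 2 := by
  unfold len
  have h1 : (Finset.univ.filter (fun p : Fin n × Fin n => p.1 < p.2 ∧
      (Fin.revPerm : Perm (Fin n)) p.2 < (Fin.revPerm : Perm (Fin n)) p.1)) =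
      Finset.univ.filter (fun p : Fin n × Fin n => p.1 < p.2) := by
    ext p
    simp only [Finset.mem_filter, Finset.mem_univ, true_and, Fin.revPerm_apply, Fin.rev_lt_rev,
      and_self]
  rw [h1, Finset.card_filter, Fintype.sum_prod_type_right]
  have h2 : ∀ y : Fin n, (∑ x : Fin n, if x < y then 1 else 0) = y.val := by
    intro y
    rw [← Finset.card_filter]
    have : (Finset.univ.filter fun x : Fin n => x < y) = Finset.Iio y := by ext; simp
    rw [this, Fin.card_Iio]
  rw [Finset.sum_congr rfl (fun y _ => h2 y), Fin.sum_univ_eq_sum_range (fun i => i) n,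
    Finset.sum_range_id, Nat.choose_two_right]

lemma isDWD_iff (w : List Lt) : IsDWD n w ↔ RedR w (fun _ => (Fin.revPerm : Perm (Fin n))) := by
  rw [redR_iff]
  unfold IsDWD IsRedW0 Red IsWord
  simp only [len_rev, and_assoc]

lemma IsDWD.step {a b : List Lt} (h : IsDWD n a) (hs : Step a b) : IsDWD n b := by
  rw [isDWD_iff] at h ⊢
  exact h.step hs

lemma Flip.step {a b : List Lt} (h : Flip a b) : Step a b := by
  rcases h with ⟨u, s, x, y, hxy, rfl, rfl⟩ | ⟨c, u, s, x, y, hxy, -, rfl, rfl⟩
  · exact ⟨u, s, _, _, Mv.mix hxy, rfl, rfl⟩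
  · exact ⟨u, s, _, _, Mv.cox hxy, rfl, rfl⟩

lemma CommStep.step {a b : List Lt} (h : CommStep a b) : Step a b := by
  obtain ⟨u, s, x, y, hxy, rfl, rfl⟩ := h
  exact ⟨u, s, _, _, Mv.comm hxy, rfl, rfl⟩

lemma step_cases {a b : List Lt} (h : Step a b) : CommStep a b ∨ Flip a b := by
  obtain ⟨u, s, p, q, hpq, rfl, rfl⟩ := h
  cases hpq with
  | @comm x y h => exact Or.inl ⟨u, s, x, y, h, rfl, rfl⟩
  | @mix x y h => exact Or.inr (Or.inl ⟨u, s, x, y, h, rfl, rfl⟩)
  | @cox x y h => exact Or.inr (Or.inr ⟨x.2, u, s, x, y, h, rfl, rfl, rfl⟩)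

lemma CommStep.cls_eq {a b : List Lt} (h : CommStep a b) : cls a = cls b := Quot.sound h

/-- the vertex of a double wiring diagram -/
def vx (a : List Lt) (h : IsDWD n a) : Vx n := ⟨cls a, a, h, rfl⟩

/-- The flip graph is connected. -/
theorem connected (n : ℕ) : (FG n).Connected := by
  have key : ∀ a b (ha : IsDWD n a) (_ : IsDWD n b), Relation.ReflTransGen Step a b →
      ∀ hb : IsDWD n b, (FG n).Reachable (vx a ha) (vx b hb) := by
    intro a b ha _ hab
    induction hab with
    | refl => intro hb; exact SimpleGraph.Reachable.refl _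
    | @tail b c h1 h2 ih =>
      intro hc
      have hb : IsDWD n b := by
        have := h2.symm
        exact hc.step this
      have h3 := ih hb hb
      rcases step_cases h2 with h4 | h4
      · have : vx b hb = vx c hc := Subtype.ext h4.cls_eq
        rw [← this]
        exact h3
      · exact h3.trans (SimpleGraph.Adj.reachable ⟨b, c, hb, hc, rfl, rfl, h4⟩)
  obtain ⟨w, hw⟩ := exists_redR _ (fun _ => (Fin.revPerm : Perm (Fin n))) rfl
  have hw' : IsDWD n w := (isDWD_iff w).2 hw
  haveI : Nonempty (Vx n) := ⟨vx w hw'⟩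
  refine SimpleGraph.Connected.mk ?_
  rintro ⟨A, a, ha, rfl⟩ ⟨B, b, hb, rfl⟩
  exact key a b ha hb (conn _ _ rfl a b ((isDWD_iff a).1 ha) ((isDWD_iff b).1 hb)) hb

end Pool.Agent.K1H77.DW
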