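import Mathlib
import Pool.Agent.K1H77.DW.Graph

/-!
A connection on the flip graph with trivial holonomy along the cells of `X_n` is a flat connection
on the words, hence has a potential.
-/

set_option autoImplicit false

namespace Pool.Agent.K1H77.DW

open Equiv SimpleGraph

variable {n : ℕ} {Γ : Type*} [Group Γ]

/-- The product of the values of `f` along a walk. -/
def hol (f : Vx n → Vx n → Γ) : ∀ {A B : Vx n}, (FG n).Walk A B → Γ
  | _, _, Walk.nil => 1
  | _, _, Walk.cons (u := A) (v := B) _ p => f A B * hol f p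

lemma AdjC.left {A B : Cls} (h : AdjC n A B) : ∃ w, IsDWD n w ∧ cls w = A := by
  obtain ⟨a, b, h1, h2, h3, h4, h5⟩ := h
  exact ⟨a, h1, h3⟩

open Classical in
/-- extension to all classes -/
noncomputable def ext (f : Vx n → Vx n → Γ) (A B : Cls) : Γ :=
  if h : (∃ w, IsDWD n w ∧ cls w = A) ∧ (∃ w, IsDWD n w ∧ cls w = B) ∧ A ≠ B then
    f ⟨A, h.1⟩ ⟨B, h.2.1⟩ else 1

lemma ext_self (f : Vx n → Vx n → Γ) (A : Cls) : ext f A A = 1 := by
  unfold ext
  rw [dif_neg]
  rintro ⟨-, -, h⟩
  exact h rfl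

lemma ext_adj (f : Vx n → Vx n → Γ) {A B : Vx n} (h : AdjC n A.1 B.1) :
    ext f A.1 B.1 = f A B := by
  unfold ext
  rw [dif_pos ⟨A.2, B.2, h.ne⟩]
  rfl

lemma ext_adj' (f : Vx n → Vx n → Γ) {A B : Cls} (h : AdjC n A B) :
    ext f A B = f ⟨A, h.left⟩ ⟨B, h.symm.left⟩ := ext_adj f (A := ⟨A, h.left⟩)
      (B := ⟨B, h.symm.left⟩) h

lemma isCycle_cons {A B C : Vx n} (hAB : (FG n).Adj A B) (hBC : (FG n).Adj B C)
    (p : (FG n).Walk C A) (hN : (B :: p.support).Nodup) (hAC : A ≠ C) :
    (Walk.cons hAB (Walk.cons hBC p)).IsCycle := by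
  rw [Walk.cons_isCycle_iff]
  have hp : (Walk.cons hBC p).IsPath := by
    rw [Walk.isPath_def, Walk.support_cons]; exact hN
  refine ⟨hp, fun hmem => ?_⟩
  rw [Sym2.eq_swap] at hmem
  have := hp.eq_snd_of_mem_edges hmem
  rw [Walk.snd_cons] at this
  exact hAC this

section cells

variable {f : Vx n → Vx n → Γ}
  (hcell : ∀ (A : Vx n) (w : (FG n).Walk A A), IsCell w → hol f w = 1)

include hcell

lemma cell4 {A B C D : Cls} (h1 : AdjC n A B) (h2 : AdjC n B C) (h3 : AdjC n C D)
    (h4 : AdjC n D A) (hN : [B, C, D, A].Nodup) :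
    ext f A B * (ext f B C * (ext f C D * ext f D A)) = 1 := by
  rw [ext_adj' f h1, ext_adj' f h2, ext_adj' f h3, ext_adj' f h4]
  let A' : Vx n := ⟨A, h1.left⟩
  let B' : Vx n := ⟨B, h2.left⟩
  let C' : Vx n := ⟨C, h3.left⟩
  let D' : Vx n := ⟨D, h4.left⟩
  have g1 : (FG n).Adj A' B' := h1
  have g2 : (FG n).Adj B' C' := h2
  have g3 : (FG n).Adj C' D' := h3
  have g4 : (FG n).Adj D' A' := h4
  have hN' : [B', C', D', A'].Nodup := List.Nodup.of_map Subtype.val hN
  have hw := hcell A' (Walk.cons g1 (Walk.cons g2 (Walk.cons g3 (Walk.cons g4 Walk.nil))))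
    ⟨isCycle_cons _ _ _ (by simpa using hN') (by
      intro e
      simp [e] at hN'), Or.inl rfl⟩
  simpa [hol] using hw

lemma cell5 {A B C D E : Cls} (h1 : AdjC n A B) (h2 : AdjC n B C) (h3 : AdjC n C D)
    (h4 : AdjC n D E) (h5 : AdjC n E A) (hN : [B, C, D, E, A].Nodup) :
    ext f A B * (ext f B C * (ext f C D * (ext f D E * ext f E A))) = 1 := by
  rw [ext_adj' f h1, ext_adj' f h2, ext_adj' f h3, ext_adj' f h4, ext_adj' f h5]
  let A' : Vx n := ⟨A, h1.left⟩
  let B' : Vx n := ⟨B, h2.left⟩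
  let C' : Vx n := ⟨C, h3.left⟩
  let D' : Vx n := ⟨D, h4.left⟩
  let E' : Vx n := ⟨E, h5.left⟩
  have g1 : (FG n).Adj A' B' := h1
  have g2 : (FG n).Adj B' C' := h2
  have g3 : (FG n).Adj C' D' := h3
  have g4 : (FG n).Adj D' E' := h4
  have g5 : (FG n).Adj E' A' := h5
  have hN' : [B', C', D', E', A'].Nodup := List.Nodup.of_map Subtype.val hN
  have hw := hcell A' (Walk.cons g1 (Walk.cons g2 (Walk.cons g3 (Walk.cons g4
    (Walk.cons g5 Walk.nil)))))
    ⟨isCycle_cons _ _ _ (by simpa using hN') (by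
      intro e
      simp [e] at hN'), Or.inr (Or.inl rfl)⟩
  simpa [hol] using hw

lemma cell8 {c : Bool} {A B C D E F G H : Cls} (h1 : CoxC n c A B) (h2 : CoxC n c B C)
    (h3 : CoxC n c C D) (h4 : CoxC n c D E) (h5 : CoxC n c E F) (h6 : CoxC n c F G)
    (h7 : CoxC n c G H) (h8 : CoxC n c H A) (hN : [B, C, D, E, F, G, H, A].Nodup) :
    ext f A B * (ext f B C * (ext f C D * (ext f D E * (ext f E F * (ext f F G * (ext f G H *
      ext f H A)))))) = 1 := by
  rw [ext_adj' f h1.adj, ext_adj' f h2.adj, ext_adj' f h3.adj, ext_adj' f h4.adj,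
    ext_adj' f h5.adj, ext_adj' f h6.adj, ext_adj' f h7.adj, ext_adj' f h8.adj]
  let A' : Vx n := ⟨A, h1.adj.left⟩
  let B' : Vx n := ⟨B, h2.adj.left⟩
  let C' : Vx n := ⟨C, h3.adj.left⟩
  let D' : Vx n := ⟨D, h4.adj.left⟩
  let E' : Vx n := ⟨E, h5.adj.left⟩
  let F' : Vx n := ⟨F, h6.adj.left⟩
  let G' : Vx n := ⟨G, h7.adj.left⟩
  let H' : Vx n := ⟨H, h8.adj.left⟩
  have g1 : (FG n).Adj A' B' := h1.adj
  have g2 : (FG n).Adj B' C' := h2.adj
  have g3 : (FG n).Adj C' D' := h3.adj
  have g4 : (FG n).Adj D' E' := h4.adj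
  have g5 : (FG n).Adj E' F' := h5.adj
  have g6 : (FG n).Adj F' G' := h6.adj
  have g7 : (FG n).Adj G' H' := h7.adj
  have g8 : (FG n).Adj H' A' := h8.adj
  have hN' : [B', C', D', E', F', G', H', A'].Nodup := List.Nodup.of_map Subtype.val hN
  have hw := hcell A' (Walk.cons g1 (Walk.cons g2 (Walk.cons g3 (Walk.cons g4
    (Walk.cons g5 (Walk.cons g6 (Walk.cons g7 (Walk.cons g8 Walk.nil))))))))
    ⟨isCycle_cons _ _ _ (by simpa using hN') (by
      intro e
      simp [e] at hN'), Or.inr (Or.inr ⟨rfl, c, by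
        intro d hd
        simp only [Walk.darts_cons, Walk.darts_nil, List.mem_cons, List.not_mem_nil,
          or_false] at hd
        rcases hd with rfl | rfl | rfl | rfl | rfl | rfl | rfl | rfl
        · exact h1
        · exact h2
        · exact h3
        · exact h4
        · exact h5
        · exact h6
        · exact h7
        · exact h8⟩)⟩
  simpa [hol] using hw

end cells

/-! ### The connection on the words -/

lemma nodup_cls {x y : Lt} (h : ¬ comm x y) (u r : List Lt) (Ws : List (List Lt))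
    (hN : (Ws.map (List.filter (SS x y))).Nodup) :
    (Ws.map (fun W => cls (u ++ (W ++ r)))).Nodup := by
  rw [List.nodup_map_iff_inj_on (List.Nodup.of_map _ hN)]
  intro W hW W' hW' he
  exact List.inj_on_of_nodup_map hN hW hW' (sep h he)

lemma cls_comm {x y : Lt} (h : comm x y) (u s : List Lt) :
    cls (u ++ x :: y :: s) = cls (u ++ y :: x :: s) := Quot.sound ⟨u, s, x, y, h, rfl, rfl⟩

lemma ne_of_sep {x y : Lt} (h : ¬ comm x y) {u r W W' : List Lt}
    (hW : W.filter (SS x y) ≠ W'.filter (SS x y)) :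
    cls (u ++ (W ++ r)) ≠ cls (u ++ (W' ++ r)) := fun he => hW (sep h he)

lemma IsDWD.steps {a b : List Lt} (h : IsDWD n a) (hs : Relation.ReflTransGen Step a b) :
    IsDWD n b := by
  induction hs with
  | refl => exact h
  | tail _ h2 ih => exact ih.step h2

lemma ext_inv {f : Vx n → Vx n → Γ} (hinv : ∀ A B, (FG n).Adj A B → f A B * f B A = 1)
    {A B : Cls} (h : AdjC n A B) : ext f A B * ext f B A = 1 := by
  rw [ext_adj' f h, ext_adj' f h.symm]
  exact hinv _ _ h

lemma adjC_of {a b : List Lt} (ha : IsDWD n a) (h : Flip a b) : AdjC n (cls a) (cls b) :=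
  ⟨a, b, ha, ha.step h.step, rfl, rfl, h⟩

lemma adjC_mix {x y : Lt} (h : mix x y) (u s : List Lt) (ha : IsDWD n (u ++ x :: y :: s)) :
    AdjC n (cls (u ++ x :: y :: s)) (cls (u ++ y :: x :: s)) :=
  adjC_of ha (Or.inl ⟨u, s, x, y, h, rfl, rfl⟩)

lemma adjC_cox {x y : Lt} (h : cox x y) (u s : List Lt) (ha : IsDWD n (u ++ x :: y :: x :: s)) :
    AdjC n (cls (u ++ x :: y :: x :: s)) (cls (u ++ y :: x :: y :: s)) :=
  adjC_of ha (Or.inr ⟨x.2, u, s, x, y, h, rfl, rfl, rfl⟩)

lemma coxC_cox {x y : Lt} (h : cox x y) (u s : List Lt) (ha : IsDWD n (u ++ x :: y :: x :: s)) :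
    CoxC n x.2 (cls (u ++ x :: y :: x :: s)) (cls (u ++ y :: x :: y :: s)) :=
  ⟨_, _, ha, ha.step ⟨u, s, _, _, Mv.cox h, rfl, rfl⟩, rfl, rfl, u, s, x, y, h, rfl, rfl, rfl⟩

section flat

variable {f : Vx n → Vx n → Γ}
  (hinv : ∀ A B, (FG n).Adj A B → f A B * f B A = 1)
  (hcell : ∀ (A : Vx n) (w : (FG n).Walk A A), IsCell w → hol f w = 1)

include hinv hcell

lemma flat_sq (u : List Lt) (p q s s' : List Lt) (hP : IsDWD n (u ++ (p ++ s))) (hpq : Mv p q)
    (hs : Step s s') :
    ext f (cls (u ++ (p ++ s))) (cls (u ++ (q ++ s))) *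
      ext f (cls (u ++ (q ++ s))) (cls (u ++ (q ++ s'))) =
    ext f (cls (u ++ (p ++ s))) (cls (u ++ (p ++ s'))) *
      ext f (cls (u ++ (p ++ s'))) (cls (u ++ (q ++ s'))) := by
  have s1 : Step (u ++ (p ++ s)) (u ++ (q ++ s)) := (hpq.step s).append u
  have s2 : Step (u ++ (p ++ s')) (u ++ (q ++ s')) := (hpq.step s').append u
  have s3 : Step (u ++ (p ++ s)) (u ++ (p ++ s')) := (hs.append p).append u
  have s4 : Step (u ++ (q ++ s)) (u ++ (q ++ s')) := (hs.append q).append u
  have d2 := hP.step s1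
  have d3 := hP.step s3
  have d4 := d3.step s2
  -- simultaneous commutations
  have key1 : (cls (u ++ (p ++ s)) = cls (u ++ (q ++ s)) ∧
      cls (u ++ (p ++ s')) = cls (u ++ (q ++ s'))) ∨
      (AdjC n (cls (u ++ (p ++ s))) (cls (u ++ (q ++ s))) ∧
        AdjC n (cls (u ++ (p ++ s'))) (cls (u ++ (q ++ s')))) := by
    cases hpq with
    | @comm x y h => exact Or.inl ⟨cls_comm h u s, cls_comm h u s'⟩
    | @mix x y h => exact Or.inr ⟨adjC_mix h u s hP, adjC_mix h u s' d3⟩
    | @cox x y h => exact Or.inr ⟨adjC_cox h u s hP, adjC_cox h u s' d3⟩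
  have key2 : (cls (u ++ (p ++ s)) = cls (u ++ (p ++ s')) ∧
      cls (u ++ (q ++ s)) = cls (u ++ (q ++ s'))) ∨
      (AdjC n (cls (u ++ (p ++ s))) (cls (u ++ (p ++ s'))) ∧
        AdjC n (cls (u ++ (q ++ s))) (cls (u ++ (q ++ s')))) := by
    obtain ⟨u', t, p', q', hpq', rfl, rfl⟩ := hs
    have e1 : ∀ k m : List Lt, u ++ (k ++ (u' ++ (m ++ t))) = (u ++ (k ++ u')) ++ (m ++ t) := by
      intro k m; simp
    cases hpq' with
    | @comm x y h =>
      refine Or.inl ⟨?_, ?_⟩
      · rw [e1, e1]; exact cls_comm h _ t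
      · rw [e1, e1]; exact cls_comm h _ t
    | @mix x y h =>
      refine Or.inr ⟨?_, ?_⟩
      · rw [e1] at hP ⊢
        rw [e1]
        exact adjC_mix h _ t hP
      · rw [e1] at d2 ⊢
        rw [e1]
        exact adjC_mix h _ t d2
    | @cox x y h =>
      refine Or.inr ⟨?_, ?_⟩
      · rw [e1] at hP ⊢
        rw [e1]
        exact adjC_cox h _ t hP
      · rw [e1] at d2 ⊢
        rw [e1]
        exact adjC_cox h _ t d2
  generalize cls (u ++ (p ++ s)) = A at *
  generalize cls (u ++ (q ++ s)) = B at *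
  generalize cls (u ++ (p ++ s')) = C at *
  generalize cls (u ++ (q ++ s')) = D at *
  rcases key1 with ⟨rfl, rfl⟩ | ⟨a1, a2⟩
  · rw [ext_self, ext_self, one_mul, mul_one]
  · rcases key2 with ⟨rfl, rfl⟩ | ⟨a3, a4⟩
    · rw [ext_self, ext_self, one_mul, mul_one]
    · by_cases hAD : A = D
      · subst hAD
        rw [ext_inv hinv a1, ext_inv hinv a3]
      · by_cases hBC : B = C
        · rw [hBC]
        · have h := cell4 hcell a1 a4 a2.symm a3.symm (by
            simp only [List.nodup_cons, List.mem_cons, List.not_mem_nil, or_false, not_or,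
              not_false_eq_true, and_true, List.nodup_nil]
            exact ⟨⟨a4.ne, hBC, a1.ne.symm⟩, ⟨a2.ne.symm, fun h => hAD h.symm⟩, a3.ne.symm⟩)
          have i1 := ext_inv hinv a3
          have i2 := ext_inv hinv a2
          rw [← mul_assoc] at h
          have e1 : ext f C A = (ext f A C)⁻¹ := (inv_eq_of_mul_eq_one_right i1).symm
          have e2 : ext f D C = (ext f C D)⁻¹ := (inv_eq_of_mul_eq_one_right i2).symm
          rw [e1, e2, ← mul_inv_rev, mul_inv_eq_one] at h
          exact h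

lemma flat_a111 (u r : List Lt) (x y z : Lt) (hP : IsDWD n (u ++ (x :: y :: z :: r)))
    (hxy : ¬ cox x y) (hxz : ¬ cox x z) (hyz : ¬ cox y z) (hxy' : x ≠ y) (hxz' : x ≠ z)
    (hyz' : y ≠ z) :
    ext f (cls (u ++ (x :: y :: z :: r))) (cls (u ++ (y :: x :: z :: r))) *
    ext f (cls (u ++ (y :: x :: z :: r))) (cls (u ++ (y :: z :: x :: r))) *
    ext f (cls (u ++ (y :: z :: x :: r))) (cls (u ++ (z :: y :: x :: r))) *
    ext f (cls (u ++ (z :: y :: x :: r))) (cls (u ++ (z :: x :: y :: r))) *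
    ext f (cls (u ++ (z :: x :: y :: r))) (cls (u ++ (x :: z :: y :: r))) *
    ext f (cls (u ++ (x :: z :: y :: r))) (cls (u ++ (x :: y :: z :: r))) = 1 := by
  have m12 := mvn hxy hxy'
  have m13 := mvn hxz hxz'
  have m23 := mvn hyz hyz'
  have d2 : IsDWD n (u ++ (y :: x :: z :: r)) := hP.step ⟨u, z :: r, _, _, m12, rfl, rfl⟩
  have d3 : IsDWD n (u ++ (y :: z :: x :: r)) := d2.step
    (Step.append u (Step.cons y ⟨[], r, _, _, m13, rfl, rfl⟩))
  -- commutations
  have cA : ∀ {a b : Lt}, comm a b → ∀ c, cls (u ++ (a :: b :: c :: r)) =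
      cls (u ++ (b :: a :: c :: r)) := fun h c => cls_comm h u (c :: r)
  have cB : ∀ {a b : Lt}, comm a b → ∀ c, cls (u ++ (c :: a :: b :: r)) =
      cls (u ++ (c :: b :: a :: r)) := by
    intro a b h c
    have := cls_comm h (u ++ [c]) r
    simpa using this
  have mxy : mix x y → comm x z ∧ comm y z := by
    intro h
    constructor
    · rcases tri hxz' with h1 | h1 | h1
      · exact h1
      · exact absurd (Prod.ext (h.2.symm.trans h1.2) (by
          have := h.1; have := h1.1
          cases hx : x.2 <;> cases hy : y.2 <;> cases hz : z.2 <;> simp_all)) hyz'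
      · exact absurd h1 hxz
    · rcases tri hyz' with h1 | h1 | h1
      · exact h1
      · exact absurd (Prod.ext (h.2.trans h1.2) (by
          have := h.1; have := h1.1
          cases hx : x.2 <;> cases hy : y.2 <;> cases hz : z.2 <;> simp_all)) hxz'
      · exact absurd h1 hyz
  rcases tri hxy' with h12 | h12 | h12
  · rcases tri hxz' with h13 | h13 | h13
    · rcases tri hyz' with h23 | h23 | h23
      · rw [cA h12 z, cB h13 y, cA h23 x, cB h12.symm z, cA h13.symm y]
        simp only [ext_self, mul_one]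
      · -- mix y z
        have e1 : cls (u ++ (x :: y :: z :: r)) = cls (u ++ (y :: z :: x :: r)) :=
          (cA h12 z).trans (cB h13 y)
        have e2 : cls (u ++ (y :: x :: z :: r)) = cls (u ++ (y :: z :: x :: r)) := cB h13 y
        have e3 : cls (u ++ (z :: x :: y :: r)) = cls (u ++ (z :: y :: x :: r)) := cB h12 z
        have e4 : cls (u ++ (x :: z :: y :: r)) = cls (u ++ (z :: y :: x :: r)) :=
          (cA h13 y).trans e3
        rw [e1, e2, e3, e4]
        simp only [ext_self, one_mul, mul_one]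
        exact ext_inv hinv (adjC_mix h23 u (x :: r) d3)
      · exact absurd h23 hyz
    · -- mix x z
      have h23 : comm y z := by
        rcases tri hyz' with h1 | h1 | h1
        · exact h1
        · exact absurd (Prod.ext (h13.2.trans h1.2.symm) (by
            have := h13.1; have := h1.1
            cases hx : x.2 <;> cases hy : y.2 <;> cases hz : z.2 <;> simp_all)) hxy'
        · exact absurd h1 hyz
      have e1 : cls (u ++ (x :: y :: z :: r)) = cls (u ++ (y :: x :: z :: r)) := cA h12 z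
      have e2 : cls (u ++ (x :: z :: y :: r)) = cls (u ++ (y :: x :: z :: r)) :=
        (cB h23.symm x).trans e1
      have e3 : cls (u ++ (z :: y :: x :: r)) = cls (u ++ (y :: z :: x :: r)) := cA h23.symm x
      have e4 : cls (u ++ (z :: x :: y :: r)) = cls (u ++ (y :: z :: x :: r)) :=
        (cB h12 z).trans e3
      rw [e1, e2, e3, e4]
      simp only [ext_self, one_mul, mul_one]
      have := adjC_mix h13 (u ++ [y]) r (by simpa using d2)
      simp only [List.append_assoc, List.cons_append, List.nil_append] at this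
      exact ext_inv hinv this
    · exact absurd h13 hxz
  · -- mix x y
    obtain ⟨h13, h23⟩ := mxy h12
    have e1 : cls (u ++ (x :: z :: y :: r)) = cls (u ++ (x :: y :: z :: r)) := cB h23.symm x
    have e2 : cls (u ++ (z :: x :: y :: r)) = cls (u ++ (x :: y :: z :: r)) :=
      (cA h13.symm y).trans e1
    have e3 : cls (u ++ (y :: z :: x :: r)) = cls (u ++ (y :: x :: z :: r)) := cB h13.symm y
    have e4 : cls (u ++ (z :: y :: x :: r)) = cls (u ++ (y :: x :: z :: r)) :=
      (cA h23.symm x).trans e3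
    rw [e1, e2, e3, e4]
    simp only [ext_self, one_mul, mul_one]
    exact ext_inv hinv (adjC_mix h12 u (z :: r) hP)
  · exact absurd h12 hxy

lemma flat_a21 (u r : List Lt) (x y z : Lt) (hP : IsDWD n (u ++ (x :: y :: x :: z :: r)))
    (hxy : cox x y) (hxz : ¬ cox x z) (hyz : ¬ cox y z) (hxz' : x ≠ z) (hyz' : y ≠ z) :
    ext f (cls (u ++ (x :: y :: x :: z :: r))) (cls (u ++ (y :: x :: y :: z :: r))) *
    (ext f (cls (u ++ (y :: x :: y :: z :: r))) (cls (u ++ (y :: x :: z :: y :: r))) *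
    ext f (cls (u ++ (y :: x :: z :: y :: r))) (cls (u ++ (y :: z :: x :: y :: r)))) *
    ext f (cls (u ++ (y :: z :: x :: y :: r))) (cls (u ++ (z :: y :: x :: y :: r))) *
    ext f (cls (u ++ (z :: y :: x :: y :: r))) (cls (u ++ (z :: x :: y :: x :: r))) *
    ext f (cls (u ++ (z :: x :: y :: x :: r))) (cls (u ++ (x :: z :: y :: x :: r))) *
    (ext f (cls (u ++ (x :: z :: y :: x :: r))) (cls (u ++ (x :: y :: z :: x :: r))) *
    ext f (cls (u ++ (x :: y :: z :: x :: r))) (cls (u ++ (x :: y :: x :: z :: r)))) = 1 := by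
  have m13 := mvn hxz hxz'
  have m23 := mvn hyz hyz'
  have d2 : IsDWD n (u ++ (y :: x :: y :: z :: r)) :=
    hP.step ⟨u, z :: r, _, _, Mv.cox hxy, rfl, rfl⟩
  have d3 : IsDWD n (u ++ (y :: x :: z :: y :: r)) :=
    d2.step (Step.append u ⟨[y, x], r, _, _, m23, rfl, rfl⟩)
  have d4 : IsDWD n (u ++ (y :: z :: x :: y :: r)) :=
    d3.step (Step.append u ⟨[y], y :: r, _, _, m13, rfl, rfl⟩)
  have d5 : IsDWD n (u ++ (z :: y :: x :: y :: r)) :=
    d4.step (Step.append u ⟨[], x :: y :: r, _, _, m23, rfl, rfl⟩)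
  have d6 : IsDWD n (u ++ (z :: x :: y :: x :: r)) :=
    d5.step (Step.append u ⟨[z], r, _, _, Mv.cox hxy.symm, rfl, rfl⟩)
  have d7 : IsDWD n (u ++ (x :: z :: y :: x :: r)) :=
    d6.step (Step.append u ⟨[], y :: x :: r, _, _, m13.symm, rfl, rfl⟩)
  have d8 : IsDWD n (u ++ (x :: y :: z :: x :: r)) :=
    d7.step (Step.append u ⟨[x], x :: r, _, _, m23.symm, rfl, rfl⟩)
  have a12 : AdjC n (cls (u ++ (x :: y :: x :: z :: r))) (cls (u ++ (y :: x :: y :: z :: r))) :=
    adjC_cox hxy u (z :: r) hP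
  have a56 : AdjC n (cls (u ++ (z :: y :: x :: y :: r))) (cls (u ++ (z :: x :: y :: x :: r))) := by
    have := adjC_cox hxy.symm (u ++ [z]) r (by simpa using d5)
    simpa using this
  have cA : ∀ {a b : Lt}, comm a b → ∀ c d, cls (u ++ (a :: b :: c :: d :: r)) =
      cls (u ++ (b :: a :: c :: d :: r)) := fun h c d => cls_comm h u (c :: d :: r)
  have cB : ∀ {a b : Lt}, comm a b → ∀ c d, cls (u ++ (c :: a :: b :: d :: r)) =
      cls (u ++ (c :: b :: a :: d :: r)) := by
    intro a b h c d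
    have := cls_comm h (u ++ [c]) (d :: r)
    simpa using this
  have cC : ∀ {a b : Lt}, comm a b → ∀ c d, cls (u ++ (c :: d :: a :: b :: r)) =
      cls (u ++ (c :: d :: b :: a :: r)) := by
    intro a b h c d
    have := cls_comm h (u ++ [c, d]) r
    simpa using this
  have hne := hxy.ne
  rcases tri hxz' with h13 | h13 | h13
  · rcases tri hyz' with h23 | h23 | h23
    · -- all commute
      have e3 : cls (u ++ (y :: x :: z :: y :: r)) = cls (u ++ (y :: x :: y :: z :: r)) :=
        cC h23.symm y x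
      have e4 : cls (u ++ (y :: z :: x :: y :: r)) = cls (u ++ (y :: x :: y :: z :: r)) :=
        (cB h13.symm y y).trans e3
      have e5 : cls (u ++ (z :: y :: x :: y :: r)) = cls (u ++ (y :: x :: y :: z :: r)) :=
        (cA h23.symm x y).trans e4
      have e8 : cls (u ++ (x :: y :: z :: x :: r)) = cls (u ++ (x :: y :: x :: z :: r)) :=
        cC h13.symm x y
      have e7 : cls (u ++ (x :: z :: y :: x :: r)) = cls (u ++ (x :: y :: x :: z :: r)) :=
        (cB h23.symm x x).trans e8
      have e6 : cls (u ++ (z :: x :: y :: x :: r)) = cls (u ++ (x :: y :: x :: z :: r)) :=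
        (cA h13.symm y x).trans e7
      rw [e3, e4, e5, e6, e7, e8]
      simp only [ext_self, one_mul, mul_one]
      exact ext_inv hinv a12
    · -- mix y z
      have e34 : cls (u ++ (y :: z :: x :: y :: r)) = cls (u ++ (y :: x :: z :: y :: r)) :=
        cB h13.symm y y
      have e67 : cls (u ++ (x :: z :: y :: x :: r)) = cls (u ++ (z :: x :: y :: x :: r)) :=
        cA h13 y x
      have e81 : cls (u ++ (x :: y :: z :: x :: r)) = cls (u ++ (x :: y :: x :: z :: r)) :=
        cC h13.symm x y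
      have a23 : AdjC n (cls (u ++ (y :: x :: y :: z :: r))) (cls (u ++ (y :: x :: z :: y :: r))) := by
        have := adjC_mix h23 (u ++ [y, x]) r (by simpa using d2)
        simpa using this
      have a45 : AdjC n (cls (u ++ (y :: z :: x :: y :: r))) (cls (u ++ (z :: y :: x :: y :: r))) :=
        adjC_mix h23 u (x :: y :: r) d4
      have a78 : AdjC n (cls (u ++ (x :: z :: y :: x :: r))) (cls (u ++ (x :: y :: z :: x :: r))) := by
        have := adjC_mix h23.symm (u ++ [x]) (x :: r) (by simpa using d7)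
        simpa using this
      rw [e34] at a45
      rw [e67, e81] at a78
      have hN := nodup_cls (mix_not_comm h23) u r
        [[y, x, y, z], [y, x, z, y], [z, y, x, y], [z, x, y, x], [x, y, x, z]] (by
          simp [SS, hne, hne.symm, hxz', hxz'.symm, hyz', hyz'.symm])
      have h := cell5 hcell a12 a23 a45 a56 a78 hN
      rw [e34, e67, e81]
      simp only [ext_self, one_mul, mul_one]
      simp only [mul_assoc]
      exact h
    · exact absurd h23 hyz
  · -- mix x z
    have h23 : comm y z := by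
      rcases tri hyz' with h1 | h1 | h1
      · exact h1
      · have e1 := h13.2
        have e2 := h1.2
        have e3 := hxy.2
        omega
      · exact absurd h1 hyz
    have e23 : cls (u ++ (y :: x :: z :: y :: r)) = cls (u ++ (y :: x :: y :: z :: r)) :=
      cC h23.symm y x
    have e45 : cls (u ++ (z :: y :: x :: y :: r)) = cls (u ++ (y :: z :: x :: y :: r)) :=
      cA h23.symm x y
    have e78 : cls (u ++ (x :: y :: z :: x :: r)) = cls (u ++ (x :: z :: y :: x :: r)) :=
      cB h23 x x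
    have a34 : AdjC n (cls (u ++ (y :: x :: z :: y :: r))) (cls (u ++ (y :: z :: x :: y :: r))) := by
      have := adjC_mix h13 (u ++ [y]) (y :: r) (by simpa using d3)
      simpa using this
    have a67 : AdjC n (cls (u ++ (z :: x :: y :: x :: r))) (cls (u ++ (x :: z :: y :: x :: r))) :=
      adjC_mix h13.symm u (y :: x :: r) d6
    have a81 : AdjC n (cls (u ++ (x :: y :: z :: x :: r))) (cls (u ++ (x :: y :: x :: z :: r))) := by
      have := adjC_mix h13.symm (u ++ [x, y]) r (by simpa using d8)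
      simpa using this
    rw [e23] at a34
    rw [e45] at a56
    rw [e78] at a81
    have hN := nodup_cls (mix_not_comm h13) u r
      [[y, x, y, z], [y, z, x, y], [z, x, y, x], [x, z, y, x], [x, y, x, z]] (by
        simp [SS, hne, hne.symm, hxz', hxz'.symm, hyz', hyz'.symm])
    have h := cell5 hcell a12 a34 a56 a67 a81 hN
    rw [e23, e45, e78]
    simp only [ext_self, one_mul, mul_one]
    simp only [mul_assoc]
    exact h
  · exact absurd h13 hxz

omit hinv in
lemma flat_a3 (u r : List Lt) (x y z : Lt)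
    (hP : IsDWD n (u ++ (x :: y :: x :: z :: y :: x :: r)))
    (hxy : cox x y) (hyz : cox y z) (hxz' : x ≠ z) :
    ext f (cls (u ++ (x :: y :: x :: z :: y :: x :: r)))
      (cls (u ++ (y :: x :: y :: z :: y :: x :: r))) *
    (ext f (cls (u ++ (y :: x :: y :: z :: y :: x :: r)))
      (cls (u ++ (y :: x :: z :: y :: z :: x :: r))) *
    ext f (cls (u ++ (y :: x :: z :: y :: z :: x :: r)))
      (cls (u ++ (y :: z :: x :: y :: z :: x :: r))) *
    ext f (cls (u ++ (y :: z :: x :: y :: z :: x :: r)))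
      (cls (u ++ (y :: z :: x :: y :: x :: z :: r))) *
    ext f (cls (u ++ (y :: z :: x :: y :: x :: z :: r)))
      (cls (u ++ (y :: z :: y :: x :: y :: z :: r)))) *
    ext f (cls (u ++ (y :: z :: y :: x :: y :: z :: r)))
      (cls (u ++ (z :: y :: z :: x :: y :: z :: r))) *
    (ext f (cls (u ++ (z :: y :: z :: x :: y :: z :: r)))
      (cls (u ++ (z :: y :: x :: z :: y :: z :: r))) *
    ext f (cls (u ++ (z :: y :: x :: z :: y :: z :: r)))
      (cls (u ++ (z :: y :: x :: y :: z :: y :: r))) *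
    ext f (cls (u ++ (z :: y :: x :: y :: z :: y :: r)))
      (cls (u ++ (z :: x :: y :: x :: z :: y :: r))) *
    ext f (cls (u ++ (z :: x :: y :: x :: z :: y :: r)))
      (cls (u ++ (z :: x :: y :: z :: x :: y :: r)))) *
    ext f (cls (u ++ (z :: x :: y :: z :: x :: y :: r)))
      (cls (u ++ (x :: z :: y :: z :: x :: y :: r))) *
    (ext f (cls (u ++ (x :: z :: y :: z :: x :: y :: r)))
      (cls (u ++ (x :: y :: z :: y :: x :: y :: r))) *
    ext f (cls (u ++ (x :: y :: z :: y :: x :: y :: r)))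
      (cls (u ++ (x :: y :: z :: x :: y :: x :: r))) *
    ext f (cls (u ++ (x :: y :: z :: x :: y :: x :: r)))
      (cls (u ++ (x :: y :: x :: z :: y :: x :: r)))) = 1 := by
  have hxz : comm x z := by
    refine Or.inl ⟨hxy.1.trans hyz.1, ?_⟩
    have h1 := hxy.2
    have h2 := hyz.2
    have h4 : x.1 ≠ z.1 := fun e => hxz' (Prod.ext e (hxy.1.trans hyz.1))
    omega
  have m13 := Mv.comm hxz
  have hne := hxy.ne
  have hyz' := hyz.ne
  have d16 : IsDWD n (u ++ (y :: x :: y :: z :: y :: x :: r)) :=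
    hP.step (Step.append u ⟨[], z :: y :: x :: r, _, _, Mv.cox hxy, rfl, rfl⟩)
  have d15 : IsDWD n (u ++ (y :: x :: z :: y :: z :: x :: r)) :=
    d16.step (Step.append u ⟨[y, x], x :: r, _, _, Mv.cox hyz, rfl, rfl⟩)
  have d14 : IsDWD n (u ++ (y :: z :: x :: y :: z :: x :: r)) :=
    d15.step (Step.append u ⟨[y], y :: z :: x :: r, _, _, m13, rfl, rfl⟩)
  have d12 : IsDWD n (u ++ (y :: z :: x :: y :: x :: z :: r)) :=
    d14.step (Step.append u ⟨[y, z, x, y], r, _, _, m13.symm, rfl, rfl⟩)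
  have d11 : IsDWD n (u ++ (y :: z :: y :: x :: y :: z :: r)) :=
    d12.step (Step.append u ⟨[y, z], z :: r, _, _, Mv.cox hxy, rfl, rfl⟩)
  have d10 : IsDWD n (u ++ (z :: y :: z :: x :: y :: z :: r)) :=
    d11.step (Step.append u ⟨[], x :: y :: z :: r, _, _, Mv.cox hyz, rfl, rfl⟩)
  have d9 : IsDWD n (u ++ (z :: y :: x :: z :: y :: z :: r)) :=
    d10.step (Step.append u ⟨[z, y], y :: z :: r, _, _, m13.symm, rfl, rfl⟩)
  have d8 : IsDWD n (u ++ (z :: y :: x :: y :: z :: y :: r)) :=
    d9.step (Step.append u ⟨[z, y, x], r, _, _, Mv.cox hyz.symm, rfl, rfl⟩)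
  have d7 : IsDWD n (u ++ (z :: x :: y :: x :: z :: y :: r)) :=
    d8.step (Step.append u ⟨[z], z :: y :: r, _, _, Mv.cox hxy.symm, rfl, rfl⟩)
  have d6 : IsDWD n (u ++ (z :: x :: y :: z :: x :: y :: r)) :=
    d7.step (Step.append u ⟨[z, x, y], y :: r, _, _, m13, rfl, rfl⟩)
  have d4 : IsDWD n (u ++ (x :: z :: y :: z :: x :: y :: r)) :=
    d6.step (Step.append u ⟨[], y :: z :: x :: y :: r, _, _, m13.symm, rfl, rfl⟩)
  have d3 : IsDWD n (u ++ (x :: y :: z :: y :: x :: y :: r)) :=
    d4.step (Step.append u ⟨[x], x :: y :: r, _, _, Mv.cox hyz.symm, rfl, rfl⟩)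
  -- commutations
  have e1514 : cls (u ++ (y :: z :: x :: y :: z :: x :: r)) =
      cls (u ++ (y :: x :: z :: y :: z :: x :: r)) := by
    have := cls_comm hxz.symm (u ++ [y]) (y :: z :: x :: r)
    simpa using this
  have e12 : cls (u ++ (y :: z :: x :: y :: x :: z :: r)) =
      cls (u ++ (y :: x :: z :: y :: z :: x :: r)) := by
    have := cls_comm hxz (u ++ [y, z, x, y]) r
    have h2 : cls (u ++ (y :: z :: x :: y :: x :: z :: r)) =
      cls (u ++ (y :: z :: x :: y :: z :: x :: r)) := by simpa using this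
    exact h2.trans e1514
  have e9 : cls (u ++ (z :: y :: x :: z :: y :: z :: r)) =
      cls (u ++ (z :: y :: z :: x :: y :: z :: r)) := by
    have := cls_comm hxz (u ++ [z, y]) (y :: z :: r)
    simpa using this
  have e6 : cls (u ++ (z :: x :: y :: z :: x :: y :: r)) =
      cls (u ++ (z :: x :: y :: x :: z :: y :: r)) := by
    have := cls_comm hxz.symm (u ++ [z, x, y]) (y :: r)
    simpa using this
  have e4 : cls (u ++ (x :: z :: y :: z :: x :: y :: r)) =
      cls (u ++ (z :: x :: y :: x :: z :: y :: r)) :=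
    (cls_comm hxz u (y :: z :: x :: y :: r)).trans e6
  have e2 : cls (u ++ (x :: y :: z :: x :: y :: x :: r)) =
      cls (u ++ (x :: y :: x :: z :: y :: x :: r)) := by
    have := cls_comm hxz.symm (u ++ [x, y]) (y :: x :: r)
    simpa using this
  -- flips
  have hc : y.2 = x.2 := hxy.1.symm
  have hc' : z.2 = x.2 := (hxy.1.trans hyz.1).symm
  have a1 : CoxC n x.2 (cls (u ++ (x :: y :: x :: z :: y :: x :: r)))
      (cls (u ++ (y :: x :: y :: z :: y :: x :: r))) := coxC_cox hxy u _ hP
  have a2 : CoxC n x.2 (cls (u ++ (y :: x :: y :: z :: y :: x :: r)))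
      (cls (u ++ (y :: x :: z :: y :: z :: x :: r))) := by
    have := coxC_cox hyz (u ++ [y, x]) (x :: r) (by simpa using d16)
    rw [hc] at this
    simpa using this
  have a3 : CoxC n x.2 (cls (u ++ (y :: z :: x :: y :: x :: z :: r)))
      (cls (u ++ (y :: z :: y :: x :: y :: z :: r))) := by
    have := coxC_cox hxy (u ++ [y, z]) (z :: r) (by simpa using d12)
    simpa using this
  have a4 : CoxC n x.2 (cls (u ++ (y :: z :: y :: x :: y :: z :: r)))
      (cls (u ++ (z :: y :: z :: x :: y :: z :: r))) := by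
    have := coxC_cox hyz u (x :: y :: z :: r) d11
    rw [hc] at this
    exact this
  have a5 : CoxC n x.2 (cls (u ++ (z :: y :: x :: z :: y :: z :: r)))
      (cls (u ++ (z :: y :: x :: y :: z :: y :: r))) := by
    have := coxC_cox hyz.symm (u ++ [z, y, x]) r (by simpa using d9)
    rw [hc'] at this
    simpa using this
  have a6 : CoxC n x.2 (cls (u ++ (z :: y :: x :: y :: z :: y :: r)))
      (cls (u ++ (z :: x :: y :: x :: z :: y :: r))) := by
    have := coxC_cox hxy.symm (u ++ [z]) (z :: y :: r) (by simpa using d8)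
    rw [hc] at this
    simpa using this
  have a7 : CoxC n x.2 (cls (u ++ (x :: z :: y :: z :: x :: y :: r)))
      (cls (u ++ (x :: y :: z :: y :: x :: y :: r))) := by
    have := coxC_cox hyz.symm (u ++ [x]) (x :: y :: r) (by simpa using d4)
    rw [hc'] at this
    simpa using this
  have a8 : CoxC n x.2 (cls (u ++ (x :: y :: z :: y :: x :: y :: r)))
      (cls (u ++ (x :: y :: z :: x :: y :: x :: r))) := by
    have := coxC_cox hxy.symm (u ++ [x, y, z]) r (by simpa using d3)
    rw [hc] at this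
    simpa using this
  rw [e12] at a3
  rw [e9] at a5
  rw [e4] at a7
  rw [e2] at a8
  have hN := nodup_cls (cox_not_comm hxy) u r
    [[y, x, y, z, y, x], [y, x, z, y, z, x], [y, z, y, x, y, z], [z, y, z, x, y, z],
      [z, y, x, y, z, y], [z, x, y, x, z, y], [x, y, z, y, x, y], [x, y, x, z, y, x]] (by
      simp [SS, hne, hne.symm, hxz', hxz'.symm, hyz', hyz'.symm])
  have h := cell8 hcell a1 a2 a3 a4 a5 a6 a7 a8 hN
  rw [e1514, e12, e9, e6, e4, e2]
  simp only [ext_self, one_mul, mul_one]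
  simp only [mul_assoc]
  exact h

/-- A connection on the flip graph with trivial holonomy along the cells is flat. -/
lemma flat : Flat (IsDWD n) (fun a b => ext f (cls a) (cls b)) where
  inv := by
    intro a b ha hs
    rcases step_cases hs with h | h
    · change ext f (cls a) (cls b) * ext f (cls b) (cls a) = 1
      rw [h.cls_eq, ext_self, one_mul]
    · exact ext_inv hinv (adjC_of ha h)
  sq := fun u p q s s' hP hpq hs => flat_sq hinv hcell u p q s s' hP hpq hs
  a111 := fun u r x y z hP h1 h2 h3 h4 h5 h6 =>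
    flat_a111 hinv hcell u r x y z hP h1 h2 h3 h4 h5 h6
  a21 := fun u r x y z hP h1 h2 h3 h4 h5 => flat_a21 hinv hcell u r x y z hP h1 h2 h3 h4 h5
  a3 := fun u r x y z hP h1 h2 h3 => flat_a3 hcell u r x y z hP h1 h2 h3

/-- **A connection on the flip graph with trivial holonomy along the cells has a potential.** -/
theorem exists_potential_graph :
    ∃ g : Vx n → Γ, ∀ A B, (FG n).Adj A B → f A B = (g A)⁻¹ * g B := by
  obtain ⟨g, hg⟩ := exists_potential (flat hinv hcell) _ []
    (fun _ => (Fin.revPerm : Perm (Fin n))) rfl (fun w hw => (isDWD_iff w).2 hw)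
  classical
  let g' : List Lt → Γ := fun w => if IsDWD n w then g w else 1
  have hg' : ∀ a b, CommStep a b → g' a = g' b := by
    intro a b h
    have hs := h.step
    by_cases ha : IsDWD n a
    · have hb := ha.step hs
      have h1 := hg a b ((isDWD_iff a).1 ha) hs
      simp only [List.nil_append] at h1
      rw [h.cls_eq, ext_self] at h1
      simp only [g', if_pos ha, if_pos hb]
      exact (inv_mul_eq_one.1 h1.symm)
    · have hb : ¬ IsDWD n b := fun hb => ha (hb.step hs.symm)
      simp only [g', if_neg ha, if_neg hb]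
  let G : Cls → Γ := Quot.lift g' hg'
  refine ⟨fun A => G A.1, ?_⟩
  rintro ⟨A, hA⟩ ⟨B, hB⟩ hAB
  obtain ⟨a, b, h1, h2, h3, h4, h5⟩ := hAB
  simp only at h3 h4
  subst h3 h4
  have h6 := hg a b ((isDWD_iff a).1 h1) h5.step
  simp only [List.nil_append] at h6
  have h7 : ext f (cls a) (cls b) = f ⟨cls a, hA⟩ ⟨cls b, hB⟩ :=
    ext_adj f (A := ⟨cls a, hA⟩) (B := ⟨cls b, hB⟩) (adjC_of h1 h5)
  rw [h7] at h6
  rw [h6]
  change _ = (g' a)⁻¹ * g' b
  simp only [g', if_pos h1, if_pos h2]

end flat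

end Pool.Agent.K1H77.DW
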