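import Mathlib
import Pool.Agent.K1H77.DW.Flatness

/-!
Homotopy of walks in `X_n`, and simple connectivity.
-/

set_option autoImplicit false

namespace Pool.Agent.K1H77.DW

open Equiv SimpleGraph

variable {n : ℕ}

/-- Homotopy of walks of the flip graph in the two-dimensional complex `X_n` (edge-path homotopy,
with fixed end points): the smallest congruence for concatenation such that a walk along an edge
and back is trivial, and the closed walks along which the two-dimensional cells are attached are
trivial. -/
inductive Hty : ∀ {A B : Vx n}, (FG n).Walk A B → (FG n).Walk A B → Prop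
  | refl {A B : Vx n} (p : (FG n).Walk A B) : Hty p p
  | symm {A B : Vx n} {p q : (FG n).Walk A B} (h : Hty p q) : Hty q p
  | trans {A B : Vx n} {p q r : (FG n).Walk A B} (h : Hty p q) (h' : Hty q r) : Hty p r
  | append {A B C : Vx n} {p p' : (FG n).Walk A B} {q q' : (FG n).Walk B C} (h : Hty p p')
      (h' : Hty q q') : Hty (p.append q) (p'.append q')
  | spur {A B : Vx n} (h : (FG n).Adj A B) : Hty (Walk.cons h (Walk.cons h.symm Walk.nil)) Walk.nil
  | cell {A : Vx n} (w : (FG n).Walk A A) (h : IsCell w) : Hty w Walk.nil

/-- Homotopy of walks in the graph `G_n` itself: insertion and deletion of backtracks. -/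
inductive GHty : ∀ {A B : Vx n}, (FG n).Walk A B → (FG n).Walk A B → Prop
  | refl {A B : Vx n} (p : (FG n).Walk A B) : GHty p p
  | symm {A B : Vx n} {p q : (FG n).Walk A B} (h : GHty p q) : GHty q p
  | trans {A B : Vx n} {p q r : (FG n).Walk A B} (h : GHty p q) (h' : GHty q r) : GHty p r
  | append {A B C : Vx n} {p p' : (FG n).Walk A B} {q q' : (FG n).Walk B C} (h : GHty p p')
      (h' : GHty q q') : GHty (p.append q) (p'.append q')
  | spur {A B : Vx n} (h : (FG n).Adj A B) :
      GHty (Walk.cons h (Walk.cons h.symm Walk.nil)) Walk.nil

/-- Products of conjugates of cells: concatenations of closed walks `p c p⁻¹` with a cell `c`. -/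
inductive ProdConj : ∀ {A : Vx n}, (FG n).Walk A A → Prop
  | nil {A : Vx n} : ProdConj (Walk.nil : (FG n).Walk A A)
  | mul {A B : Vx n} (p : (FG n).Walk A B) (c : (FG n).Walk B B) (hc : IsCell c)
      {w : (FG n).Walk A A} (hw : ProdConj w) : ProdConj ((p.append (c.append p.reverse)).append w)

lemma GHty.hty {A B : Vx n} {p q : (FG n).Walk A B} (h : GHty p q) : Hty p q := by
  induction h with
  | refl p => exact Hty.refl p
  | symm _ ih => exact ih.symm
  | trans _ _ ih1 ih2 => exact ih1.trans ih2
  | append _ _ ih1 ih2 => exact ih1.append ih2
  | spur h => exact Hty.spur h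

lemma ghty_append_reverse {A B : Vx n} (p : (FG n).Walk A B) :
    GHty (p.append p.reverse) Walk.nil := by
  induction p with
  | nil => exact GHty.refl _
  | @cons u v w h p ih =>
    have e : (Walk.cons h p).append (Walk.cons h p).reverse =
        (Walk.cons h Walk.nil).append ((p.append p.reverse).append
          (Walk.cons h.symm Walk.nil)) := by
      simp only [← Walk.append_assoc, Walk.cons_append, Walk.nil_append, Walk.reverse_cons]
    rw [e]
    exact ((GHty.refl (Walk.cons h Walk.nil)).append (ih.append (GHty.refl _))).trans
      (GHty.spur h)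

lemma ghty_reverse_append {A B : Vx n} (p : (FG n).Walk A B) :
    GHty (p.reverse.append p) Walk.nil := by
  have := ghty_append_reverse p.reverse
  rwa [Walk.reverse_reverse] at this

lemma hty_append_reverse {A B : Vx n} (p : (FG n).Walk A B) :
    Hty (p.append p.reverse) Walk.nil := (ghty_append_reverse p).hty

lemma hty_reverse_append {A B : Vx n} (p : (FG n).Walk A B) :
    Hty (p.reverse.append p) Walk.nil := (ghty_reverse_append p).hty

lemma Hty.reverse {A B : Vx n} {p q : (FG n).Walk A B} (h : Hty p q) :
    Hty p.reverse q.reverse := by
  have h1 : Hty (p.reverse.append (p.append q.reverse)) (p.reverse.append (q.append q.reverse)) :=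
    (Hty.refl _).append (h.append (Hty.refl _))
  have h2 : Hty (p.reverse.append (q.append q.reverse)) p.reverse := by
    have := (Hty.refl p.reverse).append (hty_append_reverse q)
    rwa [Walk.append_nil] at this
  have h3 : Hty (p.reverse.append (p.append q.reverse)) q.reverse := by
    have := (hty_reverse_append p).append (Hty.refl q.reverse)
    rwa [← Walk.append_assoc, Walk.nil_append] at this
  exact h2.symm.trans (h1.symm.trans h3)

/-! ### The group of closed walks up to homotopy -/

/-- homotopy of closed walks as an equivalence relation -/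
def hsetoid (v : Vx n) : Setoid ((FG n).Walk v v) :=
  ⟨Hty, fun p => Hty.refl p, fun h => h.symm, fun h h' => h.trans h'⟩

/-- the group of closed walks up to homotopy -/
def PG (v : Vx n) : Type := Quotient (hsetoid v)

/-- class of a closed walk -/
def PG.mk {v : Vx n} (w : (FG n).Walk v v) : PG v := Quotient.mk (hsetoid v) w

lemma PG.mk_eq {v : Vx n} {w w' : (FG n).Walk v v} : PG.mk w = PG.mk w' ↔ Hty w w' :=
  ⟨fun h => Quotient.exact h, fun h => Quotient.sound h⟩

instance (v : Vx n) : Mul (PG v) :=
  ⟨Quotient.map₂ (fun p q => p.append q) (fun _ _ h _ _ h' => Hty.append h h')⟩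

instance (v : Vx n) : One (PG v) := ⟨PG.mk Walk.nil⟩

instance (v : Vx n) : Inv (PG v) := ⟨Quotient.map (fun p => p.reverse) (fun _ _ h => Hty.reverse h)⟩

lemma PG.mul_mk {v : Vx n} (p q : (FG n).Walk v v) : PG.mk p * PG.mk q = PG.mk (p.append q) := rfl

lemma PG.one_def (v : Vx n) : (1 : PG v) = PG.mk Walk.nil := rfl

lemma PG.inv_mk {v : Vx n} (p : (FG n).Walk v v) : (PG.mk p)⁻¹ = PG.mk p.reverse := rfl

instance (v : Vx n) : Group (PG v) := Group.ofLeftAxioms
  (by
    intro a b c
    induction a using Quotient.inductionOn with | _ p =>
    induction b using Quotient.inductionOn with | _ q =>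
    induction c using Quotient.inductionOn with | _ r =>
    change PG.mk p * PG.mk q * PG.mk r = PG.mk p * (PG.mk q * PG.mk r)
    rw [PG.mul_mk, PG.mul_mk, PG.mul_mk, PG.mul_mk, Walk.append_assoc])
  (by
    intro a
    induction a using Quotient.inductionOn with | _ p =>
    change PG.mk Walk.nil * PG.mk p = PG.mk p
    rw [PG.mul_mk, Walk.nil_append])
  (by
    intro a
    induction a using Quotient.inductionOn with | _ p =>
    change (PG.mk p)⁻¹ * PG.mk p = PG.mk Walk.nil
    rw [PG.inv_mk, PG.mul_mk, PG.mk_eq]
    exact hty_reverse_append p)

/-- **Every closed walk of the flip graph is null-homotopic in `X_n`.** -/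
theorem hty_nil (A : Vx n) (w : (FG n).Walk A A) : Hty w Walk.nil := by
  classical
  have hconn := connected n
  let T : ∀ B : Vx n, (FG n).Walk A B := fun B => (hconn A B).some
  let f : Vx n → Vx n → PG A := fun B C =>
    if h : (FG n).Adj B C then PG.mk ((T B).append (Walk.cons h (T C).reverse)) else 1
  have hol_eq : ∀ {B C : Vx n} (p : (FG n).Walk B C),
      hol f p = PG.mk ((T B).append (p.append (T C).reverse)) := by
    intro B C p
    induction p with
    | nil =>
      rw [Walk.nil_append]
      exact (PG.mk_eq.2 (hty_append_reverse _)).symm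
    | @cons u v w h p ih =>
      change f u v * hol f p = _
      rw [ih]
      have e : f u v = PG.mk ((T u).append (Walk.cons h (T v).reverse)) := dif_pos h
      rw [e, PG.mul_mk, PG.mk_eq]
      have h1 : ((T u).append (Walk.cons h (T v).reverse)).append
          ((T v).append (p.append (T w).reverse)) =
          ((T u).append (Walk.cons h Walk.nil)).append
            (((T v).reverse.append (T v)).append (p.append (T w).reverse)) := by
        simp only [← Walk.append_assoc, Walk.cons_append, Walk.nil_append]
      have h2 : (T u).append ((Walk.cons h p).append (T w).reverse) =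
          ((T u).append (Walk.cons h Walk.nil)).append
            ((Walk.nil : (FG n).Walk v v).append (p.append (T w).reverse)) := by
        simp only [← Walk.append_assoc, Walk.cons_append, Walk.nil_append]
      rw [h1, h2]
      exact (Hty.refl _).append ((hty_reverse_append _).append (Hty.refl _))
  have hinv : ∀ B C, (FG n).Adj B C → f B C * f C B = 1 := by
    intro B C h
    have h1 := hol_eq (Walk.cons h (Walk.cons h.symm Walk.nil))
    have h2 : hol f (Walk.cons h (Walk.cons h.symm Walk.nil)) = f B C * f C B := by
      simp [hol]
    rw [← h2, h1, PG.one_def, PG.mk_eq]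
    have h3 := (Hty.refl (T B)).append ((Hty.spur h).append (Hty.refl (T B).reverse))
    rw [Walk.nil_append] at h3
    exact h3.trans (hty_append_reverse _)
  have hcell : ∀ (B : Vx n) (c : (FG n).Walk B B), IsCell c → hol f c = 1 := by
    intro B c hc
    rw [hol_eq, PG.one_def, PG.mk_eq]
    have h3 := (Hty.refl (T B)).append ((Hty.cell c hc).append (Hty.refl (T B).reverse))
    rw [Walk.nil_append] at h3
    exact h3.trans (hty_append_reverse _)
  obtain ⟨g, hg⟩ := exists_potential_graph hinv hcell
  have hol_g : ∀ {B C : Vx n} (p : (FG n).Walk B C), hol f p = (g B)⁻¹ * g C := by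
    intro B C p
    induction p with
    | nil => simp [hol]
    | @cons u v w h p ih =>
      change f u v * hol f p = _
      rw [ih, hg u v h]
      group
  have h1 := hol_g w
  rw [inv_mul_cancel, hol_eq, PG.one_def, PG.mk_eq] at h1
  -- conjugate back
  have h2 := (Hty.refl (T A).reverse).append (h1.append (Hty.refl (T A)))
  have e1 : (T A).reverse.append (((T A).append (w.append (T A).reverse)).append (T A)) =
      ((T A).reverse.append (T A)).append (w.append ((T A).reverse.append (T A))) := by
    simp only [← Walk.append_assoc, Walk.cons_append, Walk.nil_append]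
  rw [e1, Walk.nil_append] at h2
  have h3 := (hty_reverse_append (T A)).append
    ((Hty.refl w).append (hty_reverse_append (T A)))
  rw [Walk.nil_append, Walk.append_nil] at h3
  exact h3.symm.trans (h2.trans (hty_reverse_append (T A)))

/-! ### Products of conjugates -/

lemma IsCell.reverse {A : Vx n} {w : (FG n).Walk A A} (h : IsCell w) : IsCell w.reverse := by
  obtain ⟨h1, h2⟩ := h
  refine ⟨h1.reverse, ?_⟩
  rw [Walk.length_reverse]
  rcases h2 with h2 | h2 | ⟨h2, c, h3⟩
  · exact Or.inl h2
  · exact Or.inr (Or.inl h2)
  · refine Or.inr (Or.inr ⟨h2, c, fun d hd => ?_⟩)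
    rw [Walk.darts_reverse, List.mem_reverse, List.mem_map] at hd
    obtain ⟨d', hd', rfl⟩ := hd
    exact (h3 d' hd').symm

/-- up to backtracks, a product of conjugates of cells -/
def PC {A : Vx n} (w : (FG n).Walk A A) : Prop := ∃ w', ProdConj w' ∧ GHty w w'

lemma ProdConj.append {A : Vx n} {w w' : (FG n).Walk A A} (h : ProdConj w) (h' : ProdConj w') :
    ProdConj (w.append w') := by
  induction h with
  | nil => rwa [Walk.nil_append]
  | mul p c hc hw ih =>
    rw [← Walk.append_assoc]
    exact ProdConj.mul p c hc ih

lemma PC.of_ghty {A : Vx n} {w w' : (FG n).Walk A A} (h : GHty w w') (h' : PC w') : PC w := by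
  obtain ⟨w'', h1, h2⟩ := h'
  exact ⟨w'', h1, h.trans h2⟩

lemma PC.nil {A : Vx n} : PC (Walk.nil : (FG n).Walk A A) := ⟨_, ProdConj.nil, GHty.refl _⟩

lemma PC.append {A : Vx n} {w w' : (FG n).Walk A A} (h : PC w) (h' : PC w') :
    PC (w.append w') := by
  obtain ⟨u, h1, h2⟩ := h
  obtain ⟨u', h3, h4⟩ := h'
  exact ⟨_, h1.append h3, h2.append h4⟩

lemma PC.of_cell {A : Vx n} {w : (FG n).Walk A A} (h : IsCell w) : PC w := by
  refine ⟨_, ProdConj.mul Walk.nil w h ProdConj.nil, ?_⟩
  simp only [Walk.nil_append, Walk.reverse_nil, Walk.append_nil]
  exact GHty.refl _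

lemma PC.conj {A B : Vx n} (p : (FG n).Walk A B) {w : (FG n).Walk B B} (h : PC w) :
    PC (p.append (w.append p.reverse)) := by
  obtain ⟨u, h1, h2⟩ := h
  refine PC.of_ghty ((GHty.refl p).append (h2.append (GHty.refl p.reverse))) ?_
  clear h2
  induction h1 with
  | nil =>
    rw [Walk.nil_append]
    exact PC.of_ghty (ghty_append_reverse p) PC.nil
  | @mul C q c hc w hw ih =>
    have e : GHty (p.append (((q.append (c.append q.reverse)).append w).append p.reverse))
        (((p.append q).append (c.append (p.append q).reverse)).append
          (p.append (w.append p.reverse))) := by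
      have e1 : p.append (((q.append (c.append q.reverse)).append w).append p.reverse) =
          (p.append (q.append (c.append q.reverse))).append
            (Walk.nil.append (w.append p.reverse)) := by
        simp only [← Walk.append_assoc, Walk.cons_append, Walk.nil_append]
      have e2 : ((p.append q).append (c.append (p.append q).reverse)).append
          (p.append (w.append p.reverse)) =
          (p.append (q.append (c.append q.reverse))).append
            ((p.reverse.append p).append (w.append p.reverse)) := by
        simp only [← Walk.append_assoc, Walk.cons_append, Walk.nil_append, Walk.reverse_append]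
      rw [e1, e2]
      exact (GHty.refl _).append ((ghty_reverse_append p).symm.append (GHty.refl _))
    refine PC.of_ghty e (PC.append ?_ ih)
    refine ⟨_, ProdConj.mul (p.append q) c hc ProdConj.nil, ?_⟩
    rw [Walk.append_nil]
    exact GHty.refl _

lemma PC.reverse {A : Vx n} {w : (FG n).Walk A A} (h : PC w) : PC w.reverse := by
  obtain ⟨u, h1, h2⟩ := h
  have h3 : GHty w.reverse u.reverse := by
    have g1 : GHty (w.reverse.append (w.append u.reverse))
        (w.reverse.append (u.append u.reverse)) :=
      (GHty.refl _).append (h2.append (GHty.refl _))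
    have g2 : GHty (w.reverse.append (u.append u.reverse)) w.reverse := by
      have := (GHty.refl w.reverse).append (ghty_append_reverse u)
      rwa [Walk.append_nil] at this
    have g3 : GHty (w.reverse.append (w.append u.reverse)) u.reverse := by
      have := (ghty_reverse_append w).append (GHty.refl u.reverse)
      rwa [← Walk.append_assoc, Walk.nil_append] at this
    exact g2.symm.trans (g1.symm.trans g3)
  refine PC.of_ghty h3 ?_
  clear h2 h3
  induction h1 with
  | nil => exact PC.nil
  | @mul B p c hc w hw ih =>
    rw [Walk.reverse_append, Walk.reverse_append, Walk.reverse_append, Walk.reverse_reverse,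
      ← Walk.append_assoc]
    exact PC.append ih (PC.conj p (PC.of_cell hc.reverse))

/-- homotopic walks differ by a product of conjugates of cells -/
lemma Hty.pc {A B : Vx n} {p q : (FG n).Walk A B} (h : Hty p q) : PC (p.append q.reverse) := by
  induction h with
  | refl p => exact PC.of_ghty (ghty_append_reverse p) PC.nil
  | @symm A B p q _ ih =>
    have := ih.reverse
    rwa [Walk.reverse_append, Walk.reverse_reverse] at this
  | @trans A B p q r _ _ ih1 ih2 =>
    refine PC.of_ghty ?_ (ih1.append ih2)
    have e : (p.append q.reverse).append (q.append r.reverse) =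
        p.append ((q.reverse.append q).append r.reverse) := by
      simp only [← Walk.append_assoc, Walk.cons_append, Walk.nil_append]
    rw [e]
    have := (GHty.refl p).append ((ghty_reverse_append q).append (GHty.refl r.reverse))
    rw [Walk.nil_append] at this
    exact this.symm
  | @append A B C p p' q q' _ _ ih1 ih2 =>
    refine PC.of_ghty ?_ ((PC.conj p ih2).append ih1)
    have e : (p.append ((q.append q'.reverse).append p.reverse)).append (p.append p'.reverse) =
        (p.append (q.append q'.reverse)).append ((p.reverse.append p).append p'.reverse) := by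
      simp only [← Walk.append_assoc, Walk.cons_append, Walk.nil_append]
    rw [e]
    have h1 := (GHty.refl (p.append (q.append q'.reverse))).append
      ((ghty_reverse_append p).append (GHty.refl p'.reverse))
    rw [Walk.nil_append] at h1
    have e2 : (p.append q).append (p'.append q').reverse =
        (p.append (q.append q'.reverse)).append p'.reverse := by
      simp only [← Walk.append_assoc, Walk.cons_append, Walk.nil_append, Walk.reverse_append]
    rw [e2]
    exact h1.symm
  | spur h =>
    refine PC.of_ghty ?_ PC.nil
    rw [Walk.reverse_nil, Walk.append_nil]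
    exact GHty.spur h
  | cell w h =>
    rw [Walk.reverse_nil, Walk.append_nil]
    exact PC.of_cell h

/-- Every closed walk of the flip graph is, up to insertion and deletion of backtracks, a product
of conjugates of cells. -/
theorem exists_prodConj (A : Vx n) (w : (FG n).Walk A A) : ∃ w', ProdConj w' ∧ GHty w w' := by
  have := (hty_nil A w).pc
  rwa [Walk.reverse_nil, Walk.append_nil] at this

end Pool.Agent.K1H77.DW
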