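import Mathlib
import Pool.Agent.K1H77.DW.Graph

/-!
Two different flips never join the same two classes: the flip graph has no multiple edges.
-/

set_option autoImplicit false

namespace Pool.Agent.K1H77.DW

/-- The word `b` is obtained from the word `a` by the flip of the letters `x y` (mixed move) or
`x y x` (Coxeter move) which follow the prefix `u` of `a`. -/
def FlipAt (u : List Lt) (x y : Lt) (a b : List Lt) : Prop :=
  ∃ s, (mix x y ∧ a = u ++ x :: y :: s ∧ b = u ++ y :: x :: s) ∨
    (cox x y ∧ a = u ++ x :: y :: x :: s ∧ b = u ++ y :: x :: y :: s)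

lemma flip_iff_flipAt (a b : List Lt) : Flip a b ↔ ∃ u x y, FlipAt u x y a b := by
  constructor
  · rintro (⟨u, s, x, y, h, h1, h2⟩ | ⟨c, u, s, x, y, h, -, h1, h2⟩)
    · exact ⟨u, x, y, s, Or.inl ⟨h, h1, h2⟩⟩
    · exact ⟨u, x, y, s, Or.inr ⟨h, h1, h2⟩⟩
  · rintro ⟨u, x, y, s, ⟨h, h1, h2⟩ | ⟨h, h1, h2⟩⟩
    · exact Or.inl ⟨u, s, x, y, h, h1, h2⟩
    · exact Or.inr ⟨x.2, u, s, x, y, h, rfl, h1, h2⟩

lemma count_eq_of_cls (l : Lt) {a b : List Lt} (h : cls a = cls b) : a.count l = b.count l := by
  have h1 : ∀ a b, CommStep a b → a.count l = b.count l := by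
    rintro a b ⟨u, s, x, y, -, rfl, rfl⟩
    simp only [List.count_append, List.count_cons]
    omega
  exact congrArg (Quot.lift (fun w : List Lt => w.count l) h1) h

lemma list_aux {α : Type*} {p q p' q' : α} (hpq : p ≠ q) (hpq' : p' ≠ q') (U : List α) :
    ∀ (U' S1 S2 S1' S2' : List α), U ++ p :: S1 = U' ++ p' :: S1' → U ++ q :: S2 = U' ++ q' :: S2' →
      U = U' ∧ p = p' ∧ q = q' := by
  induction U with
  | nil =>
    intro U' S1 S2 S1' S2' h1 h2
    cases U' with
    | nil =>
      simp only [List.nil_append, List.cons.injEq] at h1 h2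
      exact ⟨rfl, h1.1, h2.1⟩
    | cons c V =>
      simp only [List.nil_append, List.cons_append, List.cons.injEq] at h1 h2
      exact absurd (h1.1.trans h2.1.symm) hpq
  | cons d V ih =>
    intro U' S1 S2 S1' S2' h1 h2
    cases U' with
    | nil =>
      simp only [List.nil_append, List.cons_append, List.cons.injEq] at h1 h2
      exact absurd (h1.1.symm.trans h2.1) hpq'
    | cons c V' =>
      simp only [List.cons_append, List.cons.injEq] at h1 h2
      obtain ⟨e1, e2, e3⟩ := ih V' S1 S2 S1' S2' h1.2 h2.2
      exact ⟨by rw [e1, h1.1], e2, e3⟩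

/-- Two flips which join the same two classes are the same flip: they move the same letters, with
the same numbers of occurrences of these letters before them. -/
theorem flip_unique {u u' : List Lt} {x y x' y' : Lt} {a b a' b' : List Lt}
    (h : FlipAt u x y a b) (h' : FlipAt u' x' y' a' b') (ha : cls a = cls a')
    (hb : cls b = cls b') :
    x = x' ∧ y = y' ∧ u.count x = u'.count x ∧ u.count y = u'.count y := by
  obtain ⟨s, h⟩ := h
  obtain ⟨s', h'⟩ := h'
  have cnt : ∀ {l x y : Lt} {U : List Lt}, (l = x ∨ l = y) →
      (U.filter (SS x y)).count l = U.count l := by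
    intro l x y U hl
    exact List.count_filter (by simp only [SS, decide_eq_true_eq]; exact hl)
  rcases h with ⟨hm, rfl, rfl⟩ | ⟨hm, rfl, rfl⟩ <;> rcases h' with ⟨hm', rfl, rfl⟩ | ⟨hm', rfl, rfl⟩
  · -- mixed moves
    have hne := hm.ne
    have hne' := hm'.ne
    have f1 := filter_eq_of_cls (SS_ok (mix_not_comm hm')) ha
    have f2 := filter_eq_of_cls (SS_ok (mix_not_comm hm')) hb
    have hs' : (SS x' y' x' = true) ∧ (SS x' y' y' = true) := by
      simp [SS]
    by_cases hx : x = x' ∨ x = y'
    · have hy : (x = x' ∧ y = y') ∨ (x = y' ∧ y = x') := by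
        rcases hx with rfl | rfl
        · refine Or.inl ⟨rfl, Prod.ext (hm.2.symm.trans hm'.2) ?_⟩
          have g1 := hm.1
          have g2 := hm'.1
          cases h1 : x.2 <;> cases h2 : y.2 <;> cases h3 : y'.2 <;> simp_all
        · refine Or.inr ⟨rfl, Prod.ext (hm.2.symm.trans hm'.2.symm) ?_⟩
          have g1 := hm.1
          have g2 := hm'.1
          cases h1 : x.2 <;> cases h2 : y.2 <;> cases h3 : x'.2 <;> simp_all
      rcases hy with ⟨rfl, rfl⟩ | ⟨rfl, rfl⟩
      · simp only [List.filter_append, List.filter_cons, hs'.1, hs'.2, if_true] at f1 f2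
        obtain ⟨e, -, -⟩ := list_aux hne hne _ _ _ _ _ _ f1 f2
        refine ⟨rfl, rfl, ?_, ?_⟩
        · rw [← cnt (x := x) (y := y) (Or.inl rfl), e, cnt (Or.inl rfl)]
        · rw [← cnt (x := x) (y := y) (Or.inr rfl), e, cnt (Or.inr rfl)]
      · simp only [List.filter_append, List.filter_cons, hs'.1, hs'.2, if_true] at f1 f2
        obtain ⟨-, e, -⟩ := list_aux hne hne.symm _ _ _ _ _ _ f1 f2
        exact absurd e hne
    · exfalso
      have hx1 : SS x' y' x = false := by
        simp only [SS, decide_eq_false_iff_not]; exact hx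
      have hy1 : SS x' y' y = false := by
        simp only [SS, decide_eq_false_iff_not]
        rintro (rfl | rfl)
        · apply hx
          right
          refine Prod.ext (hm.2.trans hm'.2) ?_
          have g1 := hm.1
          have g2 := hm'.1
          cases h1 : x.2 <;> cases h2 : y.2 <;> cases h3 : y'.2 <;> simp_all
        · apply hx
          left
          refine Prod.ext (hm.2.trans hm'.2.symm) ?_
          have g1 := hm.1
          have g2 := hm'.1
          cases h1 : x.2 <;> cases h2 : y.2 <;> cases h3 : x'.2 <;> simp_all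
      simp only [List.filter_append, List.filter_cons, hs'.1, hs'.2, hx1, hy1, if_true] at f1 f2
      have f3 := f1.symm.trans f2
      have f4 := List.append_cancel_left f3
      simp only [List.cons.injEq] at f4
      exact hne' f4.1
  · exfalso
    have h1 := count_eq_of_cls x' ha
    have h2 := count_eq_of_cls x' hb
    have hne' := hm'.ne
    simp only [List.count_append, List.count_cons, beq_iff_eq, if_true, if_neg hne'.symm] at h1 h2
    omega
  · exfalso
    have h1 := count_eq_of_cls x ha
    have h2 := count_eq_of_cls x hb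
    have hne' := hm.ne
    simp only [List.count_append, List.count_cons, beq_iff_eq, if_true, if_neg hne'.symm] at h1 h2
    omega
  · have hne := hm.ne
    have hne' := hm'.ne
    have hxx : x = x' := by
      by_contra hc
      have h1 := count_eq_of_cls x ha
      have h2 := count_eq_of_cls x hb
      simp only [List.count_append, List.count_cons, beq_iff_eq, if_true, if_neg hne.symm,
        if_neg (Ne.symm hc)] at h1 h2
      omega
    subst hxx
    have hyy : y = y' := by
      by_contra hc
      have h1 := count_eq_of_cls y ha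
      have h2 := count_eq_of_cls y hb
      simp only [List.count_append, List.count_cons, beq_iff_eq, if_true, if_neg hne,
        if_neg (Ne.symm hc)] at h1 h2
      omega
    subst hyy
    have hs : (SS x y x = true) ∧ (SS x y y = true) := by
      simp [SS]
    have f1 := filter_eq_of_cls (SS_ok (cox_not_comm hm)) ha
    have f2 := filter_eq_of_cls (SS_ok (cox_not_comm hm)) hb
    simp only [List.filter_append, List.filter_cons, hs.1, hs.2, if_true] at f1 f2
    obtain ⟨e, -, -⟩ := list_aux hne hne _ _ _ _ _ _ f1 f2
    refine ⟨rfl, rfl, ?_, ?_⟩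
    · rw [← cnt (x := x) (y := y) (Or.inl rfl), e, cnt (Or.inl rfl)]
    · rw [← cnt (x := x) (y := y) (Or.inr rfl), e, cnt (Or.inr rfl)]

end Pool.Agent.K1H77.DW
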